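import Pool.Agent.helper80.VD.Defs
import Pool.Agent.helper58.CRO.SpecA

/-!
# Project VD (MP_07c750_an, quantum unique ergodicity in every dimension), block F: THE GEODESIC FLOW, rows `vd:X`

RULES. Row `vd:XXX`: file `Pool/Agent/<seat>/VD/XXX.lean`, `import Pool.Agent.helper80.VD.SpecF`, `set_option autoImplicit false`, namespace `Pool.Agent.VD`, `noncomputable section`, auxiliary lemmas prefixed `XXX_`, theorem `XXX_proof (h..) : XXX_stmt` (rows listed in `from` may be used as hypotheses `(h : YYY_stmt)`).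
Rows of project CRO are proved: `import Pool.Agent.helper16.CRO.CFL` etc. give `Pool.Agent.CRO.CFL (h1 : FLX_stmt) (h2 : LIN_stmt) (h3 : DIF_stmt) (h4 : DCT_stmt) : CFL_stmt`, `Pool.Agent.CRO.FLX : FLX_stmt`, `LIN`, `DIF`, `DCT`, `HES`, `SMP`, `DT1`, `MPR` (`grep -rln 'theorem HES' Pool/Agent/*/CRO`); they may also be taken as hypotheses `(hHES : CRO.HES_stmt)`.
No `convert`, `congr!`, `native_decide`, no double quotes, no `private`, no command starting with a sharp sign. Use small files with light imports.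
-/

set_option autoImplicit false

open scoped ContDiff Topology InnerProductSpace
open MeasureTheory Filter Set

namespace Pool.Agent.VD

noncomputable section

/-! ## 1. PURE rows on flows -/

/-- **Row FSM** (PURE; medium-long; from CRO.CFL). THE FLOW OF A SMOOTH COMPACTLY SUPPORTED FIELD IS SMOOTH. (1) CLAIM S(n): for all `F`, `f` as below and every `Φ` with `IsC1Flow f Φ` all `Φ t` are `C^n`. S(1): `diff`, `dcont`. S(n) implies S(n+1): `k ≥ ‖fderiv f‖` everywhere, `T = |t|`, `χ : (F →L[ℝ] F) → ℝ` smooth with compact support, `χ = 1` on the ball of radius `exp (k T) + 1` (`ContDiffBump`).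
The field `f'(x, Y) = χ Y • (f x, (fderiv f x).comp Y)` on `F × (F →L[ℝ] F)` is smooth with compact support, let `Φ'` be its flow (CFL). The curve `s ↦ (Φ s x, fderiv (Φ s) x)` solves its equation for `|s| ≤ T`, because `‖fderiv (Φ s) x‖ ≤ exp (k |s|)` (`var`, Gronwall), so `Φ' t (x, 1) = (Φ t x, fderiv (Φ t) x)` (uniqueness, the field is globally Lipschitz). By S(n) for `f'` the map `x ↦ fderiv (Φ t) x` is `C^n`:
`contDiff_succ_iff_fderiv`. (2) JOINT: on `F × ℝ` take `f'(x, s) = (χ1 s * s • f x, 0)`, `χ1 = 1` on `[-T, T]`, smooth with compact support: its flow at time `1` maps `(x, s)`, `|s| ≤ T`, to `(Φ s x, s)` (the curve `r ↦ (Φ (r s) x, s)`), and it is smooth by (1). -/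
def FSM_stmt : Prop := ∀ (F : Type) [NormedAddCommGroup F] [NormedSpace ℝ F] [FiniteDimensional ℝ F] (f : F → F), ContDiff ℝ ∞ f → HasCompactSupport f →
  ∃ Φ : ℝ → F → F, CRO.IsC1Flow f Φ ∧ ContDiff ℝ ∞ (fun q : ℝ × F => Φ q.1 q.2)

/-- **Row FUL** (PURE; short-medium; from FSM or CRO.CFL). UNIFORM LOCAL EXISTENCE. `φ` smooth with compact support, `φ = 1` on the closed `1`-neighbourhood of `L`; `Φ` the flow of `φ • f`, `M ≥ ‖φ • f‖`, `τ = 1/(M + 1)`: for `|t| < τ` one has `‖Φ t x - x‖ < 1`, so `φ (Φ t x) = 1`. -/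
def FUL_stmt : Prop := ∀ (F : Type) [NormedAddCommGroup F] [NormedSpace ℝ F] [FiniteDimensional ℝ F] (f : F → F), ContDiff ℝ ∞ f → ∀ L : Set F, IsCompact L →
  ∃ τ : ℝ, 0 < τ ∧ ∀ x ∈ L, ∃ c : ℝ → F, c 0 = x ∧ ∀ t, |t| < τ → HasDerivAt c (f (c t)) t

/-- **Row FGE** (PURE; medium). GLUING. By recursion points `x_j` (`j : ℕ`), `x_0 = x`, and curves `b_j` through `x_j` given by the hypothesis, `x_(j+1) = b_j (τ/2)`; `c t = b_j (t - j τ/2)` for `j τ/2 ≤ t < (j+1) τ/2`; similarly for negative times. At the joints the left and the right derivatives are both `f (x_j)` (`HasDerivWithinAt` on `Iic` and `Ici`, `HasDerivWithinAt.union`, `hasDerivWithinAt_univ`). No uniqueness is needed. -/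
def FGE_stmt : Prop := ∀ (F : Type) [NormedAddCommGroup F] [NormedSpace ℝ F] (f : F → F) (S : Set F) (τ : ℝ), 0 < τ →
  (∀ x ∈ S, ∃ c : ℝ → F, c 0 = x ∧ ∀ t, |t| < τ → HasDerivAt c (f (c t)) t ∧ c t ∈ S) → ∀ x ∈ S, ∃ c : ℝ → F, c 0 = x ∧ ∀ t, HasDerivAt c (f (c t)) t ∧ c t ∈ S

/-- **Row FCP** (PURE; medium; from FSM). A COMPLETE SMOOTH FIELD HAS A SMOOTH FLOW. Uniqueness: two solutions with the same value at `0` agree (on `[-T, T]` both are in a ball, `f` is Lipschitz there: `ODE_solution_unique_of_mem_Icc` or similar). `Φ t x` = the solution through `x`; `zero`, `ode`, `add` are clear. Near `(t0, x0)`: `T = |t0| + 1`, `N` = the `1`-neighbourhood of the compact set `Φ [-T, T] x0`,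
`φ` smooth with compact support, `φ = 1` on `N`, `Ψ` = the smooth flow of `φ • f` (FSM). For `x` near `x0` (tube lemma) `‖Ψ s x - Ψ s x0‖ < 1` for all `|s| ≤ T`, `Ψ s x0 = Φ s x0`, so `Ψ s x` stays in `N` and solves the equation of `f`: `Ψ s x = Φ s x` for `|s| ≤ T`, `x` near `x0`. So `Φ` is smooth near `(t0, x0)`, and `diff`, `var`, `dcont` hold for `Φ` because they are local. -/
def FCP_stmt : Prop := ∀ (F : Type) [NormedAddCommGroup F] [NormedSpace ℝ F] [FiniteDimensional ℝ F] (f : F → F), ContDiff ℝ ∞ f → (∀ x, ∃ c : ℝ → F, c 0 = x ∧ ∀ t, HasDerivAt c (f (c t)) t) →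
  ∃ Φ : ℝ → F → F, CRO.IsC1Flow f Φ ∧ ContDiff ℝ ∞ (fun q : ℝ × F => Φ q.1 q.2) ∧ ∀ c : ℝ → F, (∀ t, HasDerivAt c (f (c t)) t) → ∀ t, c t = Φ t (c 0)

/-- **Row FC1** (PURE; short-medium). A smooth flow is a `C¹` flow with the variational equation, and it is unique. `var`: differentiate `∂_t Φ (t, y) = f (Φ t y)` in `y` (mixed derivatives of the smooth function `Φ` commute: `ContDiffAt.isSymmSndFDerivAt` or `second_derivative_symmetric`), or: `fderiv (Φ t) x w` is the derivative in `r` of `Φ t (x + r w)`. -/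
def FC1_stmt : Prop := ∀ (F : Type) [NormedAddCommGroup F] [NormedSpace ℝ F] [FiniteDimensional ℝ F] (f : F → F) (Φ : ℝ → F → F), ContDiff ℝ ∞ f → ContDiff ℝ ∞ (fun q : ℝ × F => Φ q.1 q.2) → (∀ x, Φ 0 x = x) →
  (∀ s t x, Φ (s + t) x = Φ s (Φ t x)) → (∀ t x, HasDerivAt (fun s => Φ s x) (f (Φ t x)) t) → CRO.IsC1Flow f Φ ∧ ∀ c : ℝ → F, (∀ t, HasDerivAt c (f (c t)) t) → ∀ t, c t = Φ t (c 0)

/-- **Row FDB** (PURE; medium-long). UNIFORM BOUNDS OF THE DERIVATIVES OF THE FLOW. Induction on `n`, for all `F` at once. `n = 1`: `var` and Gronwall: `‖fderiv (Φ t) x‖ ≤ exp (b T)`. `n → n + 1`: the field `f'(y, Y) = (f y, (fderiv f y).comp Y)` on `F × (F →L[ℝ] F)` has the smooth flow `Φ' t (y, Y) = (Φ t y, (fderiv (Φ t) y).comp Y)`. Along the orbit of `(x, 1)` (`‖fderiv (Φ t) x‖ ≤ exp (b T)`)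
the derivatives of `f'` of order `≤ n` are bounded by a constant depending on `n`, `b`, `T` (`f'` is bilinear in `fderiv f y` and `Y`: `ContinuousLinearMap.norm_iteratedFDeriv_le_of_bilinear`). So `‖iteratedFDeriv m (Φ' t) (x, 1)‖ ≤ C` for `m ≤ n`, and `y ↦ fderiv (Φ t) y` is `y ↦ (Φ' t (y, 1)).2`: `norm_iteratedFDeriv_fderiv`, `norm_iteratedFDeriv_comp_le`-type lemmas (composition with an affine map). -/
def FDB_stmt : Prop := ∀ (F : Type) [NormedAddCommGroup F] [NormedSpace ℝ F] [FiniteDimensional ℝ F] (n : ℕ) (T b : ℝ), ∃ C : ℝ, ∀ (f : F → F) (Φ : ℝ → F → F) (x : F), ContDiff ℝ ∞ f → CRO.IsC1Flow f Φ → ContDiff ℝ ∞ (fun q : ℝ × F => Φ q.1 q.2) →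
  (∀ t, |t| ≤ T → ∀ m ≤ n, ‖iteratedFDeriv ℝ m f (Φ t x)‖ ≤ b) → ∀ t, |t| ≤ T → ∀ m, 1 ≤ m → m ≤ n → ‖iteratedFDeriv ℝ m (Φ t) x‖ ≤ C

/-! ## 2. The metric and the Hamiltonian field -/

/-- **Row GIN** (short-medium). `G x` is injective (`pos`), so bijective: `ContinuousLinearEquiv`, `ContinuousLinearMap.inverse_equiv` / `inverse_of_isInvertible`; smooth: `contDiffAt_map_inverse`. Last part: differentiate `(IG G x).comp (G x) = id`. -/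
def GIN_stmt : Prop := ∀ (d : ℕ) (G : V d → V d →L[ℝ] V d), IsMetric G → (∀ x u, IG G x (G x u) = u ∧ G x (IG G x u) = u) ∧ (∀ x u v, ⟪IG G x u, v⟫_ℝ = ⟪u, IG G x v⟫_ℝ) ∧ (∀ x u, u ≠ 0 → 0 < ⟪IG G x u, u⟫_ℝ) ∧ ContDiff ℝ ∞ (IG G) ∧
  ∀ x w, fderiv ℝ (IG G) x w = -((IG G x).comp ((fderiv ℝ G x w).comp (IG G x)))

/-- **Row GXH** (short-medium; from GIN). `XH` is the Hamiltonian field of `Ham G` (`CRO.hvf H = (∂H/∂ξ, -∂H/∂x)`, `∂H/∂ξ = IG ξ` because `IG` is symmetric); the formulas for the derivatives. -/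
def GXH_stmt : Prop := ∀ (d : ℕ) (G : V d → V d →L[ℝ] V d), IsMetric G → ContDiff ℝ ∞ (Ham G) ∧ ContDiff ℝ ∞ (XH G) ∧ XH G = CRO.hvf (Ham G) ∧ (∀ p : P d, nrm G p ^ 2 = 2 * Ham G p) ∧
  (∀ (p : P d) (w : V d), ⟪(XH G p).2, w⟫_ℝ = -(⟪fderiv ℝ (IG G) p.1 w p.2, p.2⟫_ℝ / 2)) ∧ (∀ p q : P d, fderiv ℝ (Ham G) p q = ⟪vel G p, q.2⟫_ℝ - ⟪(XH G p).2, q.1⟫_ℝ) ∧ ∀ p : P d, fderiv ℝ (Ham G) p (XH G p) = 0

/-- **Row GLF** (THE LIFT; medium). `D γ (x)` = `fderiv (γ • ·) x` is invertible with inverse `D γ⁻¹ (γ x)` (chain rule for `γ⁻¹ • γ • x = x`), so `((D γ (x))*)⁻¹ = (D γ⁻¹ (γ x))*` and `lft γ p = (γ x, (D γ⁻¹ (γ x))* ξ)`: smooth (`adjoint` is a continuous linear isometry of operators), multiplicative (chain rule), and the fourth and fifth statement.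
SYMPLECTIC: `D(lft γ)(p)(u, η) = (Dγ u, L* η + (D_u L)* ξ)` with `L(x) = D γ⁻¹ (γ x) = (Dγ(x))⁻¹`, `D_u L = - L (D²γ(u, ·)) L`. So `omg` of two images is `⟪η, u'⟫ - ⟪ξ, L D²γ(u, u')⟫ - (the same with u, η and u', η' exchanged) = omg` (`D²γ` is symmetric). -/
def GLF_stmt : Prop := ∀ (d : ℕ) (Γ : Type) [Group Γ] [MulAction Γ (V d)], (∀ γ : Γ, ContDiff ℝ ∞ fun x : V d => γ • x) →
  (∀ p : P d, lft (1 : Γ) p = p) ∧ (∀ (γ δ : Γ) (p : P d), lft (γ * δ) p = lft γ (lft δ p)) ∧ (∀ γ : Γ, ContDiff ℝ ∞ (lft γ : P d → P d)) ∧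
  (∀ (γ : Γ) (x u : V d), fderiv ℝ (fun y : V d => γ⁻¹ • y) (γ • x) (fderiv ℝ (fun y : V d => γ • y) x u) = u ∧ fderiv ℝ (fun y : V d => γ • y) x (fderiv ℝ (fun y : V d => γ⁻¹ • y) (γ • x) u) = u) ∧
  (∀ (γ : Γ) (p : P d) (u : V d), ⟪(lft γ p).2, fderiv ℝ (fun y : V d => γ • y) p.1 u⟫_ℝ = ⟪p.2, u⟫_ℝ) ∧
  (∀ (γ : Γ) (x ξ η : V d) (a b : ℝ), (lft γ (x, a • ξ + b • η)).2 = a • (lft γ (x, ξ)).2 + b • (lft γ (x, η)).2) ∧
  (∀ (γ : Γ) (p v w : P d), omg (fderiv ℝ (lft γ : P d → P d) p v) (fderiv ℝ (lft γ : P d → P d) p w) = omg v w) ∧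
  ∀ (γ : Γ) (p v : P d), (fderiv ℝ (lft γ : P d → P d) p v).1 = fderiv ℝ (fun y : V d => γ • y) p.1 v.1

/-- **Row GHL** (short-medium; from GIN, GXH, GLF). `IG (γ x) = Dγ IG(x) Dγ*` (inverse of `G x = Dγ* G(γ x) Dγ`), so the first two statements. Third: `Ham ∘ lft γ = Ham` and `omg v (XH p) = - dH(v)` up to sign (GXH), `lft γ` symplectic: `omg (D lft XH) (D lft w) = omg XH w = ∓ dH(w) = ∓ d(H ∘ lft)(w) = omg (XH (lft p)) (D lft w)` for all `w`, `D lft` is surjective, `omg` is not degenerate. -/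
def GHL_stmt : Prop := ∀ (d : ℕ) (Γ : Type) [Group Γ] [MulAction Γ (V d)] (G : V d → V d →L[ℝ] V d), IsMetric G → (∀ γ : Γ, ContDiff ℝ ∞ fun x : V d => γ • x) →
  (∀ (γ : Γ) (x u v : V d), ⟪G (γ • x) (fderiv ℝ (fun y : V d => γ • y) x u), fderiv ℝ (fun y : V d => γ • y) x v⟫_ℝ = ⟪G x u, v⟫_ℝ) →
  (∀ (γ : Γ) (p : P d), Ham G (lft γ p) = Ham G p ∧ nrm G (lft γ p) = nrm G p ∧ vel G (lft γ p) = fderiv ℝ (fun y : V d => γ • y) p.1 (vel G p)) ∧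
  ∀ (γ : Γ) (p : P d), fderiv ℝ (lft γ : P d → P d) p (XH G p) = XH G (lft γ p)

/-- **Row GMP** (short-medium; from GLF, CRO.DT1). `|det D(lft γ)| = 1` (it preserves `omg`; `CRO.symp v w = ± omg v w`), `lft γ` is a bijection with inverse `lft γ⁻¹`: `lintegral_abs_det_fderiv_eq_addHaar_image`. -/
def GMP_stmt : Prop := ∀ (d : ℕ) (Γ : Type) [Group Γ] [MulAction Γ (V d)], (∀ γ : Γ, ContDiff ℝ ∞ fun x : V d => γ • x) → ∀ γ : Γ, MeasurePreserving (lft γ : P d → P d) (volume : Measure (P d)) (volume : Measure (P d))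

/-! ## 3. Completeness, the flow -/

/-- **Row GSC** (short; from GIN). The part of the energy shell over a compact set is compact: closed, and `⟪IG x ξ, ξ⟫ ≥ c ‖ξ‖²` for `x ∈ L` (continuous and positive on the compact set `L × unit sphere`). -/
def GSC_stmt : Prop := ∀ (d : ℕ) (G : V d → V d →L[ℝ] V d), IsMetric G → ∀ (L : Set (V d)) (E : ℝ), IsCompact L → IsCompact {p : P d | p.1 ∈ L ∧ Ham G p ≤ E}

/-- **Row GGC** (GEODESIC COMPLETENESS; short-medium; from GXH, GLF, GHL, GSC, FUL, FGE). `E = Ham G p`, `S = {q | Ham G q = E}`, `L = {q ∈ S | q.1 ∈ K}` is contained in a compact set (GSC): `τ` from FUL for this compact set. For `q ∈ S` take `γ` with `γ • q.1 ∈ K`, the curve `c'` of FUL through `lft γ q`, and `c = lft γ⁻¹ ∘ c'`: it solves the equation (GHL) and passes through `q`;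
`Ham` is constant along it (`fderiv Ham (XH) = 0`, `|t| < τ`). FGE. -/
def GGC_stmt : Prop := ∀ (d : ℕ) (Γ : Type) [Group Γ] [MulAction Γ (V d)] (K : Set (V d)) (G : V d → V d →L[ℝ] V d), FdK Γ K → IsMetric G →
  (∀ (γ : Γ) (x u v : V d), ⟪G (γ • x) (fderiv ℝ (fun y : V d => γ • y) x u), fderiv ℝ (fun y : V d => γ • y) x v⟫_ℝ = ⟪G x u, v⟫_ℝ) → ∀ p : P d, ∃ c : ℝ → P d, c 0 = p ∧ ∀ t, HasDerivAt c (XH G (c t)) t

/-- **Row GFL** (EXISTENCE OF THE FLOW; short; from GXH, GGC, FCP). -/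
def GFL_stmt : Prop := ∀ (d : ℕ) (Γ : Type) [Group Γ] [MulAction Γ (V d)] (K : Set (V d)) (G : V d → V d →L[ℝ] V d), FdK Γ K → IsMetric G →
  (∀ (γ : Γ) (x u v : V d), ⟪G (γ • x) (fderiv ℝ (fun y : V d => γ • y) x u), fderiv ℝ (fun y : V d => γ • y) x v⟫_ℝ = ⟪G x u, v⟫_ℝ) → ∃ Φ : ℝ → P d → P d, IsFlow G Φ

/-- **Row GUN** (short-medium; from GXH, FC1, GIN). Uniqueness, conservation of energy, SCALING (the curve `t ↦ (x(l t), l ξ(l t))` solves the equation: `IG` is linear and `∂_x H` is quadratic in `ξ`); `l = -1` is the reversal. -/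
def GUN_stmt : Prop := ∀ (d : ℕ) (G : V d → V d →L[ℝ] V d) (Φ : ℝ → P d → P d), IsMetric G → IsFlow G Φ → CRO.IsC1Flow (XH G) Φ ∧ (∀ c : ℝ → P d, (∀ t, HasDerivAt c (XH G (c t)) t) → ∀ t, c t = Φ t (c 0)) ∧
  (∀ (t : ℝ) (p : P d), Ham G (Φ t p) = Ham G p ∧ nrm G (Φ t p) = nrm G p) ∧ ∀ (t l : ℝ) (x ξ : V d), Φ t (x, l • ξ) = ((Φ (l * t) (x, ξ)).1, l • (Φ (l * t) (x, ξ)).2)

/-- **Row GEQ** (EQUIVARIANCE; short; from GUN, GLF, GHL). `t ↦ lft γ (Φ t p)` is a solution. -/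
def GEQ_stmt : Prop := ∀ (d : ℕ) (Γ : Type) [Group Γ] [MulAction Γ (V d)] (G : V d → V d →L[ℝ] V d) (Φ : ℝ → P d → P d), IsMetric G → (∀ γ : Γ, ContDiff ℝ ∞ fun x : V d => γ • x) →
  (∀ (γ : Γ) (x u v : V d), ⟪G (γ • x) (fderiv ℝ (fun y : V d => γ • y) x u), fderiv ℝ (fun y : V d => γ • y) x v⟫_ℝ = ⟪G x u, v⟫_ℝ) → IsFlow G Φ → ∀ (γ : Γ) (t : ℝ) (p : P d), Φ t (lft γ p) = lft γ (Φ t p)

/-- **Row GSY** (short; from GXH, GUN, CRO.SMP, CRO.DT1, CRO.MPR). The flow is symplectic and preserves the Lebesgue measure of `P d`. (`CRO.symp v w = ⟪v.1, w.2⟫ - ⟪v.2, w.1⟫ = - omg v w`.) -/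
def GSY_stmt : Prop := ∀ (d : ℕ) (G : V d → V d →L[ℝ] V d) (Φ : ℝ → P d → P d), IsMetric G → IsFlow G Φ → (∀ (t : ℝ) (p v w : P d), omg (fderiv ℝ (Φ t) p v) (fderiv ℝ (Φ t) p w) = omg v w) ∧
  (∀ (t : ℝ) (p : P d), |(fderiv ℝ (Φ t) p).det| = 1) ∧ ∀ t : ℝ, MeasurePreserving (Φ t) (volume : Measure (P d)) (volume : Measure (P d))

/-! ## 4. Uniform bounds in the class `Cls` -/

/-- **Row GUI** (short-medium; from GIN). UNIFORM BOUNDS OF `IG`. `‖IG G x‖ ≤ B m 0` for `‖x‖ ≤ m` (`lo`: `‖u‖ ≤ B m 0 ‖G x u‖`). The derivatives: `fderiv (IG G) x w = - IG (fderiv G x w) IG` and induction on `n` (`ContinuousLinearMap.norm_iteratedFDeriv_le_of_bilinear` for the compositions), or Faa di Bruno (`norm_iteratedFDeriv_comp_le`) with the smooth map `inverse` on the compact set of the operators `A` with `‖A‖ ≤ b`, `‖u‖ ≤ b ‖A u‖`. -/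
def GUI_stmt : Prop := ∀ (d : ℕ) (B : ℕ → ℕ → ℝ) (m n : ℕ), ∃ C : ℝ, ∀ G : V d → V d →L[ℝ] V d, IsMetric G → (∀ (m : ℕ) (x u : V d), ‖x‖ ≤ m → ‖u‖ ^ 2 ≤ B m 0 * ⟪G x u, u⟫_ℝ) → (∀ (m n : ℕ) (x : V d), ‖x‖ ≤ m → ‖iteratedFDeriv ℝ n G x‖ ≤ B m n) →
  ∀ x : V d, ‖x‖ ≤ m → ‖iteratedFDeriv ℝ n (IG G) x‖ ≤ C

/-- **Row GUX** (short-medium; from GUI, GXH). UNIFORM BOUNDS OF THE FIELD. `XH G p` is bilinear in `IG G p.1` resp. `fderiv (IG G) p.1` and quadratic in `p.2`. -/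
def GUX_stmt : Prop := ∀ (d : ℕ) (B : ℕ → ℕ → ℝ) (m n : ℕ) (r : ℝ), ∃ C : ℝ, ∀ G : V d → V d →L[ℝ] V d, IsMetric G → (∀ (m : ℕ) (x u : V d), ‖x‖ ≤ m → ‖u‖ ^ 2 ≤ B m 0 * ⟪G x u, u⟫_ℝ) → (∀ (m n : ℕ) (x : V d), ‖x‖ ≤ m → ‖iteratedFDeriv ℝ n G x‖ ≤ B m n) →
  ∀ p : P d, ‖p.1‖ ≤ m → ‖p.2‖ ≤ r → ‖iteratedFDeriv ℝ n (XH G) p‖ ≤ C

/-- **Row GNR** (short; from GIN). COMPARISON OF THE NORMS, uniform in the class: `c ‖ξ‖ ≤ nrm G (x, ξ) ≤ C ‖ξ‖`, `‖vel‖ ≤ C nrm`. (`‖G x‖ ≤ B m 0`, `lo`.) -/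
def GNR_stmt : Prop := ∀ (d : ℕ) (B : ℕ → ℕ → ℝ) (m : ℕ), ∃ C : ℝ, 1 ≤ C ∧ ∀ G : V d → V d →L[ℝ] V d, IsMetric G → (∀ (m : ℕ) (x u : V d), ‖x‖ ≤ m → ‖u‖ ^ 2 ≤ B m 0 * ⟪G x u, u⟫_ℝ) → (∀ (m n : ℕ) (x : V d), ‖x‖ ≤ m → ‖iteratedFDeriv ℝ n G x‖ ≤ B m n) →
  ∀ p : P d, ‖p.1‖ ≤ m → ‖p.2‖ ≤ C * nrm G p ∧ nrm G p ≤ C * ‖p.2‖ ∧ ‖vel G p‖ ≤ C * nrm G p ∧ ∀ u : V d, ‖u‖ ^ 2 ≤ C * ⟪G p.1 u, u⟫_ℝ ∧ ⟪G p.1 u, u⟫_ℝ ≤ C * ‖u‖ ^ 2 ∧ ‖u‖ ^ 2 ≤ C * ⟪IG G p.1 u, u⟫_ℝ ∧ ⟪IG G p.1 u, u⟫_ℝ ≤ C * ‖u‖ ^ 2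

/-- **Row GCF** (UNIFORM CONFINEMENT; medium; from GNR, GUN, GEQ, GHL, GLF). `K1` = the closed `1`-neighbourhood of `K` (compact); over `K1` the speed is at most `c` if `nrm ≤ 2` (GNR), so for `τ = 1/(c + 1)` an orbit which starts over `K` stays over `K1` for `|t| ≤ τ` (first exit time). `S = {γ | γ K1 ∩ K1 ≠ ∅}` is finite (`proper`). By induction on `n`: an orbit with `γ0 • x(0) ∈ K` satisfies, for `|t| ≤ n τ`,
`x(t) ∈ γ0⁻¹ S' K1` with `S'` the finite set of the products of at most `n` elements of `S` and their inverses (at the time `j τ` move the point to `K` with some `γ`: the consecutive `γ`'s differ by an element of `S`; GEQ). `L` meets only finitely many `γ K` (`proper` for `L ∪ K`). So `x(t)` is in a finite union of compact sets, take a closed ball which contains it. `‖ξ‖ ≤ C nrm` (GNR). -/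
def GCF_stmt : Prop := ∀ (d : ℕ) (Γ : Type) [Group Γ] [MulAction Γ (V d)] (K : Set (V d)) (k : ℝ) (B : ℕ → ℕ → ℝ), FdK Γ K → ∀ (m : ℕ) (T : ℝ), ∃ m' : ℕ, m ≤ m' ∧ ∀ (G : V d → V d →L[ℝ] V d) (Φ : ℝ → P d → P d), Cls Γ K k B G → IsFlow G Φ →
  ∀ (p : P d) (t : ℝ), ‖p.1‖ ≤ m → nrm G p ≤ 2 → |t| ≤ T → ‖(Φ t p).1‖ ≤ m' ∧ ‖(Φ t p).2‖ ≤ m'

/-- **Row GDB** (UNIFORM BOUNDS OF THE FLOW; short-medium; from GCF, GUX, GUN, FDB). (`GUX` bounds the derivatives of the field along the orbit, which stays in the ball of radius `m'`.) -/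
def GDB_stmt : Prop := ∀ (d : ℕ) (Γ : Type) [Group Γ] [MulAction Γ (V d)] (K : Set (V d)) (k : ℝ) (B : ℕ → ℕ → ℝ), FdK Γ K → ∀ (m n : ℕ) (T : ℝ), ∃ C : ℝ, ∀ (G : V d → V d →L[ℝ] V d) (Φ : ℝ → P d → P d), Cls Γ K k B G → IsFlow G Φ →
  ∀ (p : P d) (t : ℝ), ‖p.1‖ ≤ m → nrm G p ≤ 2 → |t| ≤ T → ∀ j ≤ n, ‖iteratedFDeriv ℝ j (Φ t) p‖ ≤ C ∧ ‖iteratedFDeriv ℝ j (XH G) (Φ t p)‖ ≤ C

/-- **Row GLP** (LIPSCHITZ AND TAYLOR BOUNDS IN A CHART; short-medium; from GDB, GNR, GUN). For `p`, `q` in a ball of radius `m` of `V d`, `nrm ≤ 1`, `‖q - p‖ ≤ c` small: the segment from `p` to `q` satisfies `nrm ≤ 2` (GNR), so the mean value inequality and Taylor's formula for `Φ t` and for `fderiv (Φ t)`. -/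
def GLP_stmt : Prop := ∀ (d : ℕ) (Γ : Type) [Group Γ] [MulAction Γ (V d)] (K : Set (V d)) (k : ℝ) (B : ℕ → ℕ → ℝ), FdK Γ K → ∀ (m : ℕ) (T : ℝ), ∃ c C : ℝ, 0 < c ∧ 1 ≤ C ∧ ∀ (G : V d → V d →L[ℝ] V d) (Φ : ℝ → P d → P d), Cls Γ K k B G → IsFlow G Φ →
  ∀ (p q : P d) (s t : ℝ), ‖p.1‖ ≤ m → nrm G p ≤ 3 / 2 → ‖q - p‖ ≤ c → |t| ≤ T → |s| ≤ T → ‖Φ t q - Φ t p‖ ≤ C * ‖q - p‖ ∧ ‖Φ t p - Φ s p‖ ≤ C * |t - s| ∧ ‖fderiv ℝ (Φ t) q - fderiv ℝ (Φ t) p‖ ≤ C * ‖q - p‖ ∧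
    ‖fderiv ℝ (Φ t) p - fderiv ℝ (Φ s) p‖ ≤ C * |t - s| ∧ ‖Φ t q - Φ t p - fderiv ℝ (Φ t) p (q - p)‖ ≤ C * ‖q - p‖ ^ 2

end

end Pool.Agent.VD
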