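import Pool.Agent.helper80.VD.SpecF

/-!
# Project VD (MP_07c750_an), block G: JACOBI EQUATION AND CURVATURE, rows `vd:X`

RULES as in `SpecF` (import `Pool.Agent.helper80.VD.SpecG`). NOTATION in the docstrings: `A = IG G x` (inverse metric), `v = vel G p = A ξ`, `C(u, w) = Chr G x u w`, `Cᵀ(u) ξ = ChT G x u ξ`, `W = Wc G p q = η - Cᵀ(u) ξ` for `q = (u, η)`, `R(u, v) w = Riem G x u v w`.
-/

set_option autoImplicit false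

open scoped ContDiff Topology InnerProductSpace
open MeasureTheory Filter Set

namespace Pool.Agent.VD

noncomputable section

/-! ## 1. Christoffel symbols -/

/-- **Row GCH** (ALGEBRA OF THE CHRISTOFFEL SYMBOLS; medium; from GIN). `gradient (fun y => ⟪G y u, v⟫) x` pairs with `w` to `⟪fderiv ℝ G x w u, v⟫`; `fderiv ℝ G x w` is symmetric (differentiate `IsMetric.symm`): so `C` is symmetric, bilinear and satisfies the Koszul formula (apply `G x (IG G x a) = a`). METRIC COMPATIBILITY: add the Koszul formulas for `⟪G C(u, v), w⟫` and `⟪G C(u, w), v⟫ = ⟪G v, C(u, w)⟫`.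
Smooth: `gradient .. = ∑ i, ⟪fderiv ℝ G x (e i) u, v⟫ • e i`, polynomial in `u`, `v`. `ChT`: expand `w` in the basis `e i` (`EuclideanSpace.basisFun`), linearity of `C` in the second argument. -/
def GCH_stmt : Prop := ∀ (d : ℕ) (G : V d → V d →L[ℝ] V d), IsMetric G → (∀ x u v, Chr G x u v = Chr G x v u) ∧ (∀ (x u u' v : V d) (a : ℝ), Chr G x (u + a • u') v = Chr G x u v + a • Chr G x u' v) ∧
  ContDiff ℝ ∞ (fun q : V d × V d × V d => Chr G q.1 q.2.1 q.2.2) ∧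
  (∀ x u v w, 2 * ⟪G x (Chr G x u v), w⟫_ℝ = ⟪fderiv ℝ G x u v, w⟫_ℝ + ⟪fderiv ℝ G x v u, w⟫_ℝ - ⟪fderiv ℝ G x w u, v⟫_ℝ) ∧
  (∀ x u v w, ⟪fderiv ℝ G x u v, w⟫_ℝ = ⟪G x (Chr G x u v), w⟫_ℝ + ⟪G x v, Chr G x u w⟫_ℝ) ∧
  (∀ x u ξ w, ⟪ChT G x u ξ, w⟫_ℝ = ⟪ξ, Chr G x u w⟫_ℝ) ∧ ContDiff ℝ ∞ (fun q : V d × V d × V d => ChT G q.1 q.2.1 q.2.2) ∧ (∀ x u v, fderiv ℝ G x u v = G x (Chr G x u v) + ChT G x u (G x v))

/-- **Row GVL** (short-medium; from GIN, GXH, GCH). First: `fderiv (IG G) x u = - A (fderiv G x u) A` (GIN) and GCH (last part with `v = A ξ`): `fderiv (IG G) x u ξ = - C(u, A ξ) - A Cᵀ(u) ξ`. Second: `vel G p = IG G p.1 p.2`, so `fderiv vel p (u, η) = fderiv (IG G) x u ξ + A η = A (η - Cᵀ(u) ξ) - C(u, v)`.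
Third: by GXH `⟪ξ', w⟫ = -½ ⟪fderiv (IG G) x w ξ, ξ⟫ = ½ ⟪C(w, v) + A Cᵀ(w) ξ, ξ⟫ = ⟪C(w, v), ξ⟫`. Fourth: from the second with `q = XH p`, `Wc G p (XH p) = 0` by the third. Fifth: `⟪W, v⟫ = ⟪η, v⟫ - ⟪ξ, C(u, v)⟫ = ⟪η, v⟫ - ⟪ξ', u⟫ = dHam (q)`. Sixth: `C` is symmetric. -/
def GVL_stmt : Prop := ∀ (d : ℕ) (G : V d → V d →L[ℝ] V d), IsMetric G → (∀ x u ξ, fderiv ℝ (IG G) x u ξ = -Chr G x u (IG G x ξ) - IG G x (ChT G x u ξ)) ∧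
  (∀ p q : P d, fderiv ℝ (vel G) p q = IG G p.1 (Wc G p q) - Chr G p.1 (vel G p) q.1) ∧ (∀ p : P d, (XH G p).2 = ChT G p.1 (vel G p) p.2) ∧
  (∀ p : P d, Wc G p (XH G p) = 0 ∧ fderiv ℝ (vel G) p (XH G p) = -Chr G p.1 (vel G p) (vel G p)) ∧ (∀ p q : P d, ⟪Wc G p q, vel G p⟫_ℝ = fderiv ℝ (Ham G) p q) ∧
  ∀ p q q' : P d, omg q q' = ⟪Wc G p q, q'.1⟫_ℝ - ⟪Wc G p q', q.1⟫_ℝ

/-! ## 2. The Jacobi equation -/

/-- `c` is, at the time `t`, an integral curve of the geodesic field, and `q` a solution of the linearised equation -/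
def JP {d : ℕ} (G : V d → V d →L[ℝ] V d) (c q : ℝ → P d) (t : ℝ) : Prop := HasDerivAt c (XH G (c t)) t ∧ HasDerivAt q (fderiv ℝ (XH G) (c t) (q t)) t

/-- **Row GJC** (THE JACOBI EQUATION; medium; from GIN, GXH, GCH, GVL). Everything at the single time `t` (all functions below are smooth functions of `(c s, q s)`, so only `c'(t)`, `q'(t)` matter). `u' = (fderiv XH c q).1 = fderiv vel c q = z - C(v, u)`, `z = A W` (GVL): the first statement. SECOND: (a) differentiate the identity `fderiv vel p (XH p) = - C(vel p, vel p)` (GVL) in the direction `q` at `p = c t`: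
`D²vel(q, XH) + fderiv vel p (fderiv XH p q) = - (D_u C)(v, v) - 2 C(fderiv vel p q, v)`. (b) `s ↦ fderiv vel (c s) (q s)` has the derivative `D²vel(XH, q) + fderiv vel (fderiv XH q)` at `t`, which by (a) (`D²vel` is symmetric) is `- (D_u C)(v, v) - 2 C(u', v)`. (c) `z = fderiv vel c q + C(v, u)`, `v' = fderiv vel c (XH c) = - C(v, v)`, so
`z' = - (D_u C)(v, v) - 2 C(u', v) + (D_v C)(v, u) - C(C(v, v), u) + C(v, u')`; insert `u' = z - C(v, u)`: `z' = - C(v, z) - [(D_u C)(v, v) - (D_v C)(u, v) + C(u, C(v, v)) - C(v, C(u, v))] = - C(v, z) - R(u, v) v`. (d) `W = G z`: `W' = (fderiv G x v) z + G z' = G C(v, z) + Cᵀ(v) G z - G C(v, z) - G R(u, v) v` (GCH). -/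
def GJC_stmt : Prop := ∀ (d : ℕ) (G : V d → V d →L[ℝ] V d), IsMetric G → ∀ (c q : ℝ → P d) (t : ℝ), JP G c q t →
  HasDerivAt (fun s => (q s).1) (IG G (c t).1 (Wc G (c t) (q t)) - Chr G (c t).1 (vel G (c t)) (q t).1) t ∧
  HasDerivAt (fun s => Wc G (c s) (q s)) (ChT G (c t).1 (vel G (c t)) (Wc G (c t) (q t)) - G (c t).1 (Riem G (c t).1 (q t).1 (vel G (c t)) (vel G (c t)))) t

/-- **Row GQD** (short-medium; from GIN, GCH, GVL, GJC). Derivatives along the flow of: `Q = ⟪W, u⟫`; `⟪G u, u'⟫`; `⟪A W, W'⟫`; `⟪ξ, u⟫` (`= ⟪W, v⟫`, because `⟪ξ', u⟫ = ⟪ξ, C(v, u)⟫`); `⟪W, v⟫` is the derivative of `Ham`, which is constant. Metric compatibility (GCH) cancels all Christoffel symbols: e.g. `⟪G u, u'⟫' = ⟪(D_v G) u, u'⟫ + ⟪G (z - C(v, u)), u'⟫ + ⟪G u, z' - C(v, u')⟫ = ⟪W, u'⟫ + ⟪u, W'⟫`. -/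
def GQD_stmt : Prop := ∀ (d : ℕ) (G : V d → V d →L[ℝ] V d), IsMetric G → ∀ (c q q' : ℝ → P d) (t : ℝ), JP G c q t → JP G c q' t →
  HasDerivAt (fun s => Qc G (c s) (q s)) (⟪IG G (c t).1 (Wc G (c t) (q t)), Wc G (c t) (q t)⟫_ℝ - ⟪G (c t).1 (Riem G (c t).1 (q t).1 (vel G (c t)) (vel G (c t))), (q t).1⟫_ℝ) t ∧
  HasDerivAt (fun s => ⟪G (c s).1 (q s).1, (q' s).1⟫_ℝ) (⟪Wc G (c t) (q t), (q' t).1⟫_ℝ + ⟪Wc G (c t) (q' t), (q t).1⟫_ℝ) t ∧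
  HasDerivAt (fun s => ⟪IG G (c s).1 (Wc G (c s) (q s)), Wc G (c s) (q' s)⟫_ℝ) (-⟪Riem G (c t).1 (q t).1 (vel G (c t)) (vel G (c t)), Wc G (c t) (q' t)⟫_ℝ - ⟪Riem G (c t).1 (q' t).1 (vel G (c t)) (vel G (c t)), Wc G (c t) (q t)⟫_ℝ) t ∧
  HasDerivAt (fun s => ⟪(c s).2, (q s).1⟫_ℝ) ⟪Wc G (c t) (q t), vel G (c t)⟫_ℝ t ∧ HasDerivAt (fun s => ⟪Wc G (c s) (q s), vel G (c s)⟫_ℝ) 0 t

/-- **Row GRI** (ALGEBRA OF THE CURVATURE; short-medium; from GIN, GXH, GCH, GVL, GJC, CRO.HES). Linearity in each argument: clear (`fderiv` of sums; `C` bilinear). `R(v, v) w = 0`: clear. SYMMETRY `⟪G R(u, v) v, w⟫ = ⟪G R(w, v) v, u⟫`: `p = (x, G v)`, `c s = p + s XH p`, `q s = q + s (fderiv XH p q)` with `q = (u, Cᵀ(u) G v)` (`W = 0`), the same for `q'` with `w`: `JP` at `s = 0`.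
`omg (q s) (q' s) = ⟪W, u'⟫ - ⟪W', u⟫` (GVL) has derivative `0` at `s = 0` (CRO.HES: `omg (fderiv XH p q) q' + omg q (fderiv XH p q') = 0`), and by GJC it is `- ⟪G R(u, v) v, w⟫ + ⟪G R(w, v) v, u⟫` (`W = W' = 0`). So `⟪G R(u, v) v, v⟫ = ⟪G R(v, v) v, u⟫ = 0`. Smoothness: `Riem` is a smooth function of all its arguments. -/
def GRI_stmt : Prop := ∀ (d : ℕ) (G : V d → V d →L[ℝ] V d), IsMetric G → (∀ (x u u' v w : V d) (a : ℝ), Riem G x (u + a • u') v w = Riem G x u v w + a • Riem G x u' v w) ∧ (∀ (x u v v' w : V d) (a : ℝ), Riem G x u (v + a • v') w = Riem G x u v w + a • Riem G x u v' w) ∧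
  (∀ (x u v w w' : V d) (a : ℝ), Riem G x u v (w + a • w') = Riem G x u v w + a • Riem G x u v w') ∧ (∀ x v w : V d, Riem G x v v w = 0) ∧ (∀ x u v w : V d, ⟪G x (Riem G x u v v), w⟫_ℝ = ⟪G x (Riem G x w v v), u⟫_ℝ) ∧ (∀ x u v : V d, ⟪G x (Riem G x u v v), v⟫_ℝ = 0) ∧
  ContDiff ℝ ∞ (fun q : V d × V d × V d × V d => Riem G q.1 q.2.1 q.2.2.1 q.2.2.2)

/-- **Row GNT** (NATURALITY; medium; from GLF, GHL, GXH, GCH, GVL, GJC, GQD). `L = lft γ`. If `JP G c q 0` then `JP G (L ∘ c) (fun s => fderiv L (c s) (q s)) 0`: the first part is GHL; for the second differentiate `fderiv L p (XH p) = XH (L p)` in the direction `q`: `D²L(q, XH) + fderiv L (fderiv XH q) = fderiv XH (L p) (fderiv L p q)`. The function `⟪G u, u'⟫` is the same for both (isometry; `(fderiv L p q).1 = Dγ u`),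
so by GQD `⟪W, u'⟫ + ⟪W', u⟫` is the same; `omg` is the same (GLF), so by GVL `⟪W, u'⟫ - ⟪W', u⟫` is the same: FIRST STATEMENT (every `w` is a `u'`). Then `⟪A W, W⟫` is the same (`⟪A W, W⟫ = sup` or: `A(γ x) = Dγ A Dγ*` (GHL/GLF) and `Dγ* W~ = W`), `Q` is the same along the curves, so by GQD the curvature terms agree (`c s = p + s XH p`, `p = (x, G v)`): SECOND STATEMENT. -/
def GNT_stmt : Prop := ∀ (d : ℕ) (Γ : Type) [Group Γ] [MulAction Γ (V d)] (G : V d → V d →L[ℝ] V d), IsMetric G → (∀ γ : Γ, ContDiff ℝ ∞ fun x : V d => γ • x) →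
  (∀ (γ : Γ) (x u v : V d), ⟪G (γ • x) (fderiv ℝ (fun y : V d => γ • y) x u), fderiv ℝ (fun y : V d => γ • y) x v⟫_ℝ = ⟪G x u, v⟫_ℝ) →
  (∀ (γ : Γ) (p q : P d) (w : V d), ⟪Wc G (lft γ p) (fderiv ℝ (lft γ : P d → P d) p q), fderiv ℝ (fun y : V d => γ • y) p.1 w⟫_ℝ = ⟪Wc G p q, w⟫_ℝ) ∧
  ∀ (γ : Γ) (x u v : V d), ⟪G (γ • x) (Riem G (γ • x) (fderiv ℝ (fun y : V d => γ • y) x u) (fderiv ℝ (fun y : V d => γ • y) x v) (fderiv ℝ (fun y : V d => γ • y) x v)), fderiv ℝ (fun y : V d => γ • y) x u⟫_ℝ = ⟪G x (Riem G x u v v), u⟫_ℝ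

/-- **Row GUR** (UNIFORM BOUNDS OF THE CURVATURE on balls; medium; from GUI, GCH, GIN). `Chr G x u w = IG G x (½ (fderiv G x u w + fderiv G x w u - ∑ i, ⟪fderiv G x (e i) u, w⟫ e i))`, bilinear in `u`, `w`, with the derivatives of the coefficients bounded (derivatives of `G` of order `≤ 3` and of `IG` of order `≤ 2`). -/
def GUR_stmt : Prop := ∀ (d : ℕ) (B : ℕ → ℕ → ℝ) (m : ℕ), ∃ C : ℝ, ∀ G : V d → V d →L[ℝ] V d, IsMetric G → (∀ (m : ℕ) (x u : V d), ‖x‖ ≤ m → ‖u‖ ^ 2 ≤ B m 0 * ⟪G x u, u⟫_ℝ) → (∀ (m n : ℕ) (x : V d), ‖x‖ ≤ m → ‖iteratedFDeriv ℝ n G x‖ ≤ B m n) →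
  (∀ x u v : V d, ‖x‖ ≤ m → ‖Chr G x u v‖ ≤ C * ‖u‖ * ‖v‖ ∧ ‖ChT G x u v‖ ≤ C * ‖u‖ * ‖v‖) ∧ (∀ x y u v : V d, ‖x‖ ≤ m → ‖y‖ ≤ m → ‖Chr G x u v - Chr G y u v‖ ≤ C * ‖x - y‖ * ‖u‖ * ‖v‖ ∧ ‖ChT G x u v - ChT G y u v‖ ≤ C * ‖x - y‖ * ‖u‖ * ‖v‖) ∧
  (∀ x u v w : V d, ‖x‖ ≤ m → ‖Riem G x u v w‖ ≤ C * ‖u‖ * ‖v‖ * ‖w‖) ∧ ∀ x y u v w : V d, ‖x‖ ≤ m → ‖y‖ ≤ m → ‖Riem G x u v w - Riem G y u v w‖ ≤ C * ‖x - y‖ * ‖u‖ * ‖v‖ * ‖w‖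

/-- **Row GNG** (CURVATURE BOUNDS EVERYWHERE; short-medium; from GLF, GNT, GUR, GNR, GRI). `neg` holds at the points of `K`, and `γ • x ∈ K` for some `γ` (`FdK.cover`): GNT and the isometry. The same for the upper bound (GUR and GNR on a ball which contains `K`). Polarisation (GRI): the third statement (`a(u, w) = -⟪G R(u, v) v, w⟫` is symmetric; for `u, w` with `|a(u, u)| ≤ C |u|²|v|²` for all `u`). -/
def GNG_stmt : Prop := ∀ (d : ℕ) (Γ : Type) [Group Γ] [MulAction Γ (V d)] (K : Set (V d)) (k : ℝ) (B : ℕ → ℕ → ℝ), FdK Γ K → ∃ C : ℝ, 1 ≤ C ∧ ∀ G : V d → V d →L[ℝ] V d, Cls Γ K k B G →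
  (∀ x u v : V d, ⟪G x (Riem G x u v v), u⟫_ℝ ≤ -k * (⟪G x u, u⟫_ℝ * ⟪G x v, v⟫_ℝ - ⟪G x u, v⟫_ℝ ^ 2)) ∧ (∀ x u v : V d, -⟪G x (Riem G x u v v), u⟫_ℝ ≤ C * (⟪G x u, u⟫_ℝ * ⟪G x v, v⟫_ℝ)) ∧
  ∀ x u v w : V d, ⟪G x (Riem G x u v v), w⟫_ℝ ^ 2 ≤ C ^ 2 * ⟪G x u, u⟫_ℝ * ⟪G x w, w⟫_ℝ * ⟪G x v, v⟫_ℝ ^ 2

/-- **Row GQG** (GROWTH OF `Q`; short; from GIN, GVL, GQD, GRI, GNG). For an orbit in the shell `nrm = 1` and `q` with `⟪ξ, u⟫ = 0`, `⟪W, v⟫ = 0` (both are preserved, GQD): `Q' = ⟪A W, W⟫ - ⟪G R(u, v) v, u⟫ ≥ ⟪A W, W⟫ + k ⟪G u, u⟫` (`⟪G u, v⟫ = ⟪u, ξ⟫ = 0`, `⟪G v, v⟫ = 1`). The bounds for the derivative of `N² = ⟪G u, u⟫ + ⟪A W, W⟫`. -/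
def GQG_stmt : Prop := ∀ (d : ℕ) (Γ : Type) [Group Γ] [MulAction Γ (V d)] (K : Set (V d)) (k : ℝ) (B : ℕ → ℕ → ℝ), FdK Γ K → ∃ C : ℝ, 1 ≤ C ∧ ∀ G : V d → V d →L[ℝ] V d, Cls Γ K k B G → ∀ (c q : ℝ → P d) (t : ℝ), JP G c q t → nrm G (c t) = 1 → ⟪(c t).2, (q t).1⟫_ℝ = 0 → ⟪Wc G (c t) (q t), vel G (c t)⟫_ℝ = 0 →
  ∃ a b : ℝ, HasDerivAt (fun s => Qc G (c s) (q s)) a t ∧ HasDerivAt (fun s => ⟪G (c s).1 (q s).1, (q s).1⟫_ℝ + ⟪IG G (c s).1 (Wc G (c s) (q s)), Wc G (c s) (q s)⟫_ℝ) b t ∧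
    min 1 k * (⟪G (c t).1 (q t).1, (q t).1⟫_ℝ + ⟪IG G (c t).1 (Wc G (c t) (q t)), Wc G (c t) (q t)⟫_ℝ) ≤ a ∧ |b| ≤ C * (⟪G (c t).1 (q t).1, (q t).1⟫_ℝ + ⟪IG G (c t).1 (Wc G (c t) (q t)), Wc G (c t) (q t)⟫_ℝ)

/-- **Row GQN** (short; from GNT, GLF). `Q` is natural (GNT with `w = v.1`). -/
def GQN_stmt : Prop := ∀ (d : ℕ) (Γ : Type) [Group Γ] [MulAction Γ (V d)] (G : V d → V d →L[ℝ] V d), IsMetric G → (∀ γ : Γ, ContDiff ℝ ∞ fun x : V d => γ • x) →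
  (∀ (γ : Γ) (x u v : V d), ⟪G (γ • x) (fderiv ℝ (fun y : V d => γ • y) x u), fderiv ℝ (fun y : V d => γ • y) x v⟫_ℝ = ⟪G x u, v⟫_ℝ) → ∀ (γ : Γ) (p v : P d), Qc G (lft γ p) (fderiv ℝ (lft γ : P d → P d) p v) = Qc G p v

/-- **Row GJQ** (THE INEQUALITY FOR `Q`, INTEGRATED; short-medium; from GXH, GUN, GNR, GCF, GVL, GQD, GQG, GUR). `q s = fderiv (Φ s) p v` (a solution of the linearised equation: `IsC1Flow.var`), `l = ⟪p.2, v.1⟫`; `⟪ξ, u⟫' = ⟪W, vel⟫ = dHam = 0` (GQD, GVL), so `⟪ξ, u⟫ = l` for all `s`. `q' s = q s - l • XH (Φ s p)` also solves it (`fderiv (Φ s) p (XH p) = XH (Φ s p)`), `⟪ξ, u'⟫ = 0`, its `W` is the same (`Wc (XH) = 0`), and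
`Qc (q) = Qc (q')` (`⟪W, vel⟫ = 0`). GQG for `q'`: `Q' ≥ min 1 k N²`, `|(N²)'| ≤ C N²`, so `N²(s) ≥ exp (-3 C) N²(0)` and `Qc (Φ t p) ≥ Qc p + (1/4) min 1 k exp (-3 C) N²(0)` for `1/4 ≤ t ≤ 3` (range widened 22:52). `N²(0) ≥ c' ‖q' 0‖² ` (GNR, GUR on the ball of radius `m`: `‖u‖² ≤ C ⟪G u, u⟫`, `‖η‖ ≤ ‖W‖ + C ‖u‖`) and `‖v‖² ≤ 2 ‖q' 0‖² + 2 l² ‖XH p‖²`. -/
def GJQ_stmt : Prop := ∀ (d : ℕ) (Γ : Type) [Group Γ] [MulAction Γ (V d)] (K : Set (V d)) (k : ℝ) (B : ℕ → ℕ → ℝ), FdK Γ K → ∀ m : ℕ, 0 < k → ∃ c C : ℝ, 0 < c ∧ 0 < C ∧ ∀ (G : V d → V d →L[ℝ] V d) (Φ : ℝ → P d → P d), Cls Γ K k B G → IsFlow G Φ →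
  ∀ (p v : P d) (t : ℝ), ‖p.1‖ ≤ m → nrm G p = 1 → fderiv ℝ (Ham G) p v = 0 → 1 / 4 ≤ t → t ≤ 3 → Qc G p v + c * ‖v‖ ^ 2 - C * ⟪p.2, v.1⟫_ℝ ^ 2 ≤ Qc G (Φ t p) (fderiv ℝ (Φ t) p v)

/-! ## 3. Negative curvature and the class -/

/-- **Row GNK** (the field `neg` of `Cls` for one negatively curved metric; short-medium; from GIN, GCH, GRI). `f(x, u, v) = ⟪G R(u, v) v, u⟫` is continuous (GRI) and negative on the compact set of the `(x, u, v)` with `x ∈ K`, `⟪G u, u⟫ = ⟪G v, v⟫ = 1`, `⟪G u, v⟫ = 0` (such `u`, `v` are independent, the denominator is `1`): so `f ≤ -k` there for some `k ∈ (0, 1]`.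
General `u, v`: if `v = 0` or `u` is a multiple of `v` both sides are `0` (GRI); otherwise replace `u` by its component orthogonal to `v` (GRI: `R(v, v) = 0`, `⟪G R(u, v) v, v⟫ = 0`; the Gram determinant does not change) and scale. -/
def GNK_stmt : Prop := ∀ (d : ℕ) (K : Set (V d)) (G : V d → V d →L[ℝ] V d), IsCompact K → IsMetric G → NegativelyCurved G → ∃ k : ℝ, 0 < k ∧ k ≤ 1 ∧ ∀ x ∈ K, ∀ u v, ⟪G x (Riem G x u v v), u⟫_ℝ ≤ -k * (⟪G x u, u⟫_ℝ * ⟪G x v, v⟫_ℝ - ⟪G x u, v⟫_ℝ ^ 2)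

end

end Pool.Agent.VD
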