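import Pool.Agent.helper80.VD.SpecD
import Pool.Agent.helper62.VD.SpecE2

/-!
# Project VD (MP_07c750_an): row FLD = the structure `FlD` of block E with UNIFORM constant
-/

set_option autoImplicit false

open scoped ContDiff Topology InnerProductSpace
open MeasureTheory Filter Set

namespace Pool.Agent.VD

noncomputable section

/-- **Row FLD** (the facts about the geodesic flow used by the ergodicity block, with a constant which depends only on the class) -/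
def FLD_stmt : Prop := ∀ (d : ℕ) (Γ : Type) [Group Γ] [MulAction Γ (V d)] (K : Set (V d)) (k : ℝ) (B : ℕ → ℕ → ℝ) (χ : V d → ℝ), FdK Γ K → Ctf K χ →
  ∃ C : ℝ, 1 ≤ C ∧ ∀ (F0 : Set (V d)) (G : V d → V d →L[ℝ] V d) (Φ : ℝ → P d → P d), VDE.FDX Γ K F0 → Cls Γ K k B G → IsFlow G Φ → VDE.FlD Γ K F0 G Φ C (dP Γ χ)

theorem FLD_proof (hGLF : GLF_stmt) (hGHL : GHL_stmt) (hGMP : GMP_stmt) (hGUN : GUN_stmt) (hGEQ : GEQ_stmt) (hGSY : GSY_stmt) (hGNR : GNR_stmt) (hDPP : DPP_stmt) : FLD_stmt := by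
  intro d Γ _ _ K k B χ hK hχ
  obtain ⟨m, hm⟩ : ∃ m : ℕ, ∀ x ∈ K, ‖x‖ + 1 ≤ m := by
    obtain ⟨R, hR⟩ := hK.compact.isBounded.exists_norm_le
    obtain ⟨m, hm⟩ := exists_nat_ge (R + 1)
    exact ⟨m, fun x hx => le_trans (by linarith [hR x hx]) hm⟩
  obtain ⟨C1, hC1, hN⟩ := hGNR d B m
  obtain ⟨p1, p2, p3, p4, p5, p6, p7, p8, p9, p10, p11⟩ := hDPP d Γ K χ hK hχ
  obtain ⟨C2, hC2, hlo⟩ := p9 (C1 * 2)
  obtain ⟨C3, hC3, hup⟩ := p10 m (C1 * 2 + 1)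
  refine ⟨max C2 C3, le_max_of_le_left hC2, ?_⟩
  intro F0 G Φ hF hG hΦ
  obtain ⟨l1, l2, l3, l4, l5, l6, l7, l8⟩ := hGLF d Γ hK.smooth
  obtain ⟨h1, h2⟩ := hGHL d Γ G hG.met hK.smooth hG.isom
  obtain ⟨u1, u2, u3, u4⟩ := hGUN d G Φ hG.met hΦ
  obtain ⟨s1, s2, s3⟩ := hGSY d G Φ hG.met hΦ
  have hn2 : ∀ p : P d, p.1 ∈ K → nrm G p ≤ 2 → ‖p.2‖ ≤ C1 * 2 := by
    intro p hp hp2
    have := (hN G hG.met hG.lo hG.bd p (by linarith [hm p.1 hp])).1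
    nlinarith
  refine ⟨hK, hF, hG.met, hΦ, ⟨p7, p2, p3, p4, p5, p6, ?_, ?_⟩, l1, l2, fun γ => (l3 γ).continuous, hGMP d Γ hK.smooth, fun γ p => (h1 γ p).2.1, fun t p => (u3 t p).2, hGEQ d Γ G Φ hG.met hK.smooth hG.isom hΦ, ?_, s3⟩
  · intro p q hp hp2 _ hd
    exact le_trans (hlo p q hp (hn2 p hp hp2) hd) (mul_le_mul_of_nonneg_right (le_max_left _ _) (p2 p q))
  · intro p q hp hp2 _ hpq
    have e1 : ‖p.1 - q.1‖ ≤ 1 := le_trans (norm_fst_le (p - q)) hpq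
    have e2 : ‖p.2 - q.2‖ ≤ 1 := le_trans (norm_snd_le (p - q)) hpq
    have e3 : ‖q.1‖ ≤ ‖p.1‖ + ‖p.1 - q.1‖ := by
      have := norm_sub_norm_le q.1 p.1
      rw [norm_sub_rev] at this
      linarith
    have e4 : ‖q.2‖ ≤ ‖p.2‖ + ‖p.2 - q.2‖ := by
      have := norm_sub_norm_le q.2 p.2
      rw [norm_sub_rev] at this
      linarith
    have e5 := hm p.1 hp
    have e6 := hn2 p hp hp2
    exact le_trans (hup p q (by linarith) (by linarith) (by linarith) (by linarith)) (mul_le_mul_of_nonneg_right (le_max_right _ _) (norm_nonneg _))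
  · intro t l p _
    obtain ⟨x, ξ⟩ := p
    exact u4 t l x ξ

end

end Pool.Agent.VD
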