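import Pool.Agent.helper80.VD.SpecG

set_option autoImplicit false

open scoped ContDiff Topology InnerProductSpace
open MeasureTheory Filter Set

namespace Pool.Agent.VD

noncomputable section

/-- growth: `|N'| ≤ C N`, `Q' ≥ κ N` -/
theorem GJQ_ode (Q N a b : ℝ → ℝ) (κ C t : ℝ) (hκ : 0 ≤ κ) (hC : 0 ≤ C) (hQ : ∀ s, HasDerivAt Q (a s) s) (hN : ∀ s, HasDerivAt N (b s) s)
    (ha : ∀ s, κ * N s ≤ a s) (hb : ∀ s, |b s| ≤ C * N s) (hN0 : 0 ≤ N 0) (ht : 1 / 4 ≤ t) (ht2 : t ≤ 3) :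
    Q 0 + 1 / 4 * (κ * Real.exp (-(3 * C)) * N 0) ≤ Q t := by
  have h1 : ∀ s, HasDerivAt (fun s => Real.exp (C * s) * N s) (Real.exp (C * s) * C * N s + Real.exp (C * s) * b s) s := by
    intro s
    have e1 : HasDerivAt (fun s : ℝ => Real.exp (C * s)) (Real.exp (C * s) * C) s := by
      have e0 : HasDerivAt (fun s : ℝ => C * s) C s := by
        simpa using (hasDerivAt_id s).const_mul C
      exact e0.exp
    exact e1.mul (hN s)
  have h2 : Monotone (fun s => Real.exp (C * s) * N s) := by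
    refine monotone_of_deriv_nonneg (fun s => (h1 s).differentiableAt) (fun s => ?_)
    rw [(h1 s).deriv]
    have e2 := (abs_le.1 (hb s)).1
    have e3 : 0 ≤ Real.exp (C * s) := Real.exp_nonneg _
    have e4 : Real.exp (C * s) * C * N s + Real.exp (C * s) * b s = Real.exp (C * s) * (C * N s + b s) := by ring
    rw [e4]
    exact mul_nonneg e3 (by linarith)
  have h3 : ∀ s, 0 ≤ s → s ≤ 3 → Real.exp (-(3 * C)) * N 0 ≤ N s := by
    intro s hs0 hs2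
    have e1 := h2 hs0
    simp only [mul_zero, Real.exp_zero, one_mul] at e1
    have e2 : Real.exp (-(C * s)) * N 0 ≤ N s := by
      have e3 := mul_le_mul_of_nonneg_left e1 (Real.exp_nonneg (-(C * s)))
      rw [← mul_assoc, ← Real.exp_add, neg_add_cancel, Real.exp_zero, one_mul] at e3
      exact e3
    refine le_trans (mul_le_mul_of_nonneg_right (Real.exp_le_exp.2 ?_) hN0) e2
    nlinarith
  have h4 : MonotoneOn (fun s => Q s - κ * Real.exp (-(3 * C)) * N 0 * s) (Icc 0 3) := by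
    have h5 : ∀ s, HasDerivAt (fun s => Q s - κ * Real.exp (-(3 * C)) * N 0 * s) (a s - κ * Real.exp (-(3 * C)) * N 0) s := by
      intro s
      have e0 : HasDerivAt (fun s : ℝ => κ * Real.exp (-(3 * C)) * N 0 * s) (κ * Real.exp (-(3 * C)) * N 0) s := by
        simpa using (hasDerivAt_id s).const_mul (κ * Real.exp (-(3 * C)) * N 0)
      exact (hQ s).sub e0
    refine monotoneOn_of_deriv_nonneg (convex_Icc 0 3) (fun s _ => (h5 s).continuousAt.continuousWithinAt)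
      (fun s _ => (h5 s).differentiableAt.differentiableWithinAt) (fun s hs => ?_)
    rw [interior_Icc] at hs
    rw [(h5 s).deriv]
    have e1 := h3 s hs.1.le hs.2.le
    have e2 := mul_le_mul_of_nonneg_left e1 hκ
    have e3 := ha s
    linarith
  have h6 := h4 (left_mem_Icc.2 (by norm_num)) (mem_Icc.2 ⟨by linarith, ht2⟩) (by linarith : (0 : ℝ) ≤ t)
  simp only [mul_zero, sub_zero] at h6
  have h7 : 0 ≤ κ * Real.exp (-(3 * C)) * N 0 := mul_nonneg (mul_nonneg hκ (Real.exp_nonneg _)) hN0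
  nlinarith

theorem GJQ_omg_self {d : ℕ} (q : P d) : omg q q = 0 := by
  unfold omg
  ring

theorem GJQ_omg_sub {d : ℕ} (q X r : P d) (l : ℝ) : omg (q - l • X) r = omg q r - l * omg X r := by
  unfold omg
  simp only [Prod.fst_sub, Prod.snd_sub, Prod.smul_fst, Prod.smul_snd, inner_sub_left, inner_sub_right, real_inner_smul_left, real_inner_smul_right]
  ring

theorem GJQ_proof (hGXH : GXH_stmt) (hGUN : GUN_stmt) (hGNR : GNR_stmt) (hGCF : GCF_stmt) (hGVL : GVL_stmt) (hGQD : GQD_stmt)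
    (hGQG : GQG_stmt) (hGUR : GUR_stmt) (hGDB : GDB_stmt) : GJQ_stmt := by
  intro d Γ _ _ K k B hK m hk
  obtain ⟨CQ, hCQ, HQ⟩ := hGQG d Γ K k B hK
  obtain ⟨CN, hCN, HN⟩ := hGNR d B m
  obtain ⟨CR, HR⟩ := hGUR d B m
  set CX : ℝ := CN + |CR| * CN * CN with hCX
  set D : ℝ := 3 + 2 * (|CR| * CN) ^ 2 with hD
  set κ : ℝ := min 1 k * Real.exp (-(3 * CQ)) with hκ
  have hmin : 0 < min 1 k := lt_min one_pos hk
  have hκ0 : 0 < κ := mul_pos hmin (Real.exp_pos _)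
  have hD0 : 0 < D := by positivity
  have hCN0 : 0 < CN := by linarith
  have hCX0 : 0 < CX := by
    have : 0 ≤ |CR| * CN * CN := mul_nonneg (mul_nonneg (abs_nonneg _) hCN0.le) hCN0.le
    rw [hCX]; linarith
  refine ⟨κ / (8 * D * CN), κ * CX ^ 2 / (4 * D * CN), by positivity, by positivity, ?_⟩
  intro G Φ hG hΦ p v t hp hnrm hdH ht1 ht2
  obtain ⟨hH, hXs, -, -, -, -, hHX⟩ := hGXH d G hG.met
  obtain ⟨hC1, -, hcons, -⟩ := hGUN d G Φ hG.met hΦ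
  obtain ⟨-, -, hV3, hV4, hV5, hV6⟩ := hGVL d G hG.met
  have hQD := hGQD d G hG.met
  obtain ⟨n1, n2, n3, n4⟩ := HN G hG.met hG.lo hG.bd p hp
  obtain ⟨r1, -, -, -⟩ := HR G hG.met hG.lo hG.bd
  set l : ℝ := ⟪p.2, v.1⟫_ℝ with hl
  -- the curves
  set c : ℝ → P d := fun s => Φ s p with hc
  set q : ℝ → P d := fun s => fderiv ℝ (Φ s) p v with hq
  set q' : ℝ → P d := fun s => q s - l • XH G (c s) with hq'
  have hc0 : c 0 = p := hΦ.zero p
  have hq0 : q 0 = v := by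
    have e1 : Φ 0 = fun x => x := funext hΦ.zero
    show fderiv ℝ (Φ 0) p v = v
    rw [e1, fderiv_id']
    rfl
  have hcd : ∀ s, HasDerivAt c (XH G (c s)) s := fun s => hΦ.deriv s p
  have hqd : ∀ s, HasDerivAt q (fderiv ℝ (XH G) (c s) (q s)) s := by
    intro s
    have e1 := (hC1.var p s).clm_apply (hasDerivAt_const s v)
    simpa using e1
  have hXd : ∀ s, HasDerivAt (fun s => XH G (c s)) (fderiv ℝ (XH G) (c s) (XH G (c s))) s := by
    intro s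
    have e1 : HasFDerivAt (XH G) (fderiv ℝ (XH G) (c s)) (c s) :=
      ((hXs.differentiable (by simp)) (c s)).hasFDerivAt
    exact e1.comp_hasDerivAt s (hcd s)
  have hq'd : ∀ s, HasDerivAt q' (fderiv ℝ (XH G) (c s) (q' s)) s := by
    intro s
    have e1 := (hqd s).sub ((hXd s).const_smul l)
    have e2 : fderiv ℝ (XH G) (c s) (q' s) = fderiv ℝ (XH G) (c s) (q s) - l • fderiv ℝ (XH G) (c s) (XH G (c s)) := by
      show fderiv ℝ (XH G) (c s) (q s - l • XH G (c s)) = _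
      rw [map_sub, map_smul]
    rw [e2]
    exact e1
  have hJ : ∀ s, JP G c q s := fun s => ⟨hcd s, hqd s⟩
  have hJ' : ∀ s, JP G c q' s := fun s => ⟨hcd s, hq'd s⟩
  -- conserved quantities
  have hW : ∀ s, ⟪Wc G (c s) (q s), vel G (c s)⟫_ℝ = 0 := by
    intro s
    have e1 : ∀ s, HasDerivAt (fun s => ⟪Wc G (c s) (q s), vel G (c s)⟫_ℝ) 0 s := fun s => (hQD c q q s (hJ s) (hJ s)).2.2.2.2
    have e2 := is_const_of_deriv_eq_zero (fun s => (e1 s).differentiableAt) (fun s => (e1 s).deriv) s 0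
    have e3 : ⟪Wc G (c 0) (q 0), vel G (c 0)⟫_ℝ = 0 := by
      rw [hc0, hq0, hV5, hdH]
    exact e2.trans e3
  have hξ : ∀ s, ⟪(c s).2, (q s).1⟫_ℝ = l := by
    intro s
    have e1 : ∀ s, HasDerivAt (fun s => ⟪(c s).2, (q s).1⟫_ℝ) 0 s := by
      intro s
      have e4 := (hQD c q q s (hJ s) (hJ s)).2.2.2.1
      rw [hW s] at e4
      exact e4
    have e2 := is_const_of_deriv_eq_zero (fun s => (e1 s).differentiableAt) (fun s => (e1 s).deriv) s 0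
    have e3 : ⟪(c 0).2, (q 0).1⟫_ℝ = l := by rw [hc0, hq0]
    exact e2.trans e3
  have hn : ∀ s, nrm G (c s) = 1 := fun s => ((hcons s p).2).trans hnrm
  have hvξ : ∀ s, ⟪(c s).2, vel G (c s)⟫_ℝ = 1 := by
    intro s
    have e1 := hn s
    unfold nrm at e1
    have e2 : ⟪IG G (c s).1 (c s).2, (c s).2⟫_ℝ = 1 := by
      have e3 := Real.sqrt_eq_one.1 e1
      exact e3
    rw [real_inner_comm]
    exact e2
  have hξ' : ∀ s, ⟪(c s).2, (q' s).1⟫_ℝ = 0 := by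
    intro s
    have e1 : (q' s).1 = (q s).1 - l • vel G (c s) := rfl
    rw [e1, inner_sub_right, real_inner_smul_right, hξ s, hvξ s]
    ring
  have hW' : ∀ s, ⟪Wc G (c s) (q' s), vel G (c s)⟫_ℝ = 0 := by
    intro s
    rw [hV5]
    show fderiv ℝ (Ham G) (c s) (q s - l • XH G (c s)) = 0
    rw [map_sub, map_smul, hHX, ← hV5, hW s]
    simp
  have hQ' : ∀ s, Qc G (c s) (q' s) = Qc G (c s) (q s) := by
    intro s
    have e1 : (q' s).1 = (q s).1 - l • vel G (c s) := rfl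
    have e2 : Qc G (c s) (q' s) = ⟪Wc G (c s) (q' s), (q s).1⟫_ℝ := by
      unfold Qc
      rw [e1, inner_sub_right, real_inner_smul_right, hW' s]
      ring
    have e3 := hV6 (c s) (q' s) (q s)
    have e4 : omg (q' s) (q s) = 0 := by
      have e5 : omg (q' s) (q s) = omg (q s) (q s) - l * omg (XH G (c s)) (q s) := GJQ_omg_sub _ _ _ _
      have e6 := hV6 (c s) (XH G (c s)) (q s)
      have e7 : ⟪Wc G (c s) (q s), (XH G (c s)).1⟫_ℝ = 0 := hW s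
      rw [(hV4 (c s)).1, inner_zero_left, e7] at e6
      rw [e5, GJQ_omg_self, e6]
      ring
    rw [e4] at e3
    have e8 : ⟪Wc G (c s) (q s), (q' s).1⟫_ℝ = Qc G (c s) (q s) := by
      unfold Qc
      rw [e1, inner_sub_right, real_inner_smul_right, hW s]
      ring
    rw [e2]
    linarith
  -- growth
  choose a b hab using fun s => HQ G hG c q' s (hJ' s) (hn s) (hξ' s) (hW' s)
  set N : ℝ → ℝ := fun s => ⟪G (c s).1 (q' s).1, (q' s).1⟫_ℝ + ⟪IG G (c s).1 (Wc G (c s) (q' s)), Wc G (c s) (q' s)⟫_ℝ with hN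
  have hN0 : 0 ≤ N 0 := by
    have e1 := (hab 0).2.2.2
    have e2 : |b 0| ≤ CQ * N 0 := e1
    have e3 := (abs_nonneg (b 0)).trans e2
    by_contra hcon
    push Not at hcon
    nlinarith
  have hgr := GJQ_ode (fun s => Qc G (c s) (q' s)) N a b (min 1 k) CQ t hmin.le (by linarith) (fun s => (hab s).1) (fun s => (hab s).2.1)
    (fun s => (hab s).2.2.1) (fun s => (hab s).2.2.2) hN0 ht1 ht2
  have hgr' : Qc G p v + 1 / 4 * (κ * N 0) ≤ Qc G (Φ t p) (fderiv ℝ (Φ t) p v) := by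
    have e1 : Qc G (c 0) (q' 0) = Qc G p v := by rw [hQ' 0, hc0, hq0]
    have e2 : Qc G (c t) (q' t) = Qc G (Φ t p) (fderiv ℝ (Φ t) p v) := hQ' t
    rw [← e1, ← e2]
    exact hgr
  -- lower bound of `N 0`
  have hNlow : ‖q' 0‖ ^ 2 ≤ D * CN * N 0 := by
    set u := (q' 0).1 with hu
    set w := Wc G p (q' 0) with hw
    have e1 : N 0 = ⟪G p.1 u, u⟫_ℝ + ⟪IG G p.1 w, w⟫_ℝ := by
      show ⟪G (c 0).1 (q' 0).1, (q' 0).1⟫_ℝ + ⟪IG G (c 0).1 (Wc G (c 0) (q' 0)), Wc G (c 0) (q' 0)⟫_ℝ = _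
      rw [hc0]
    have e2 := (n4 u).1
    have e3 := (n4 w).2.2.1
    have e4 : (q' 0).2 = w + ChT G p.1 u p.2 := by
      rw [hw]
      unfold Wc
      rw [hu]
      abel
    have e5 : ‖p.2‖ ≤ CN := by rw [hnrm, mul_one] at n1; exact n1
    have e6 : ‖(q' 0).2‖ ≤ ‖w‖ + |CR| * CN * ‖u‖ := by
      rw [e4]
      refine (norm_add_le _ _).trans (add_le_add le_rfl ?_)
      refine ((r1 p.1 u p.2 hp).2).trans ?_
      calc CR * ‖u‖ * ‖p.2‖ ≤ |CR| * ‖u‖ * ‖p.2‖ :=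
            mul_le_mul_of_nonneg_right (mul_le_mul_of_nonneg_right (le_abs_self _) (norm_nonneg _)) (norm_nonneg _)
        _ ≤ |CR| * ‖u‖ * CN := mul_le_mul_of_nonneg_left e5 (mul_nonneg (abs_nonneg _) (norm_nonneg _))
        _ = |CR| * CN * ‖u‖ := by ring
    have e7 : ‖(q' 0).2‖ ^ 2 ≤ 2 * ‖w‖ ^ 2 + 2 * (|CR| * CN) ^ 2 * ‖u‖ ^ 2 := by
      have f1 : ‖(q' 0).2‖ ^ 2 ≤ (‖w‖ + |CR| * CN * ‖u‖) ^ 2 := pow_le_pow_left₀ (norm_nonneg _) e6 2
      nlinarith [sq_nonneg (‖w‖ - |CR| * CN * ‖u‖)]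
    have e8 : ‖q' 0‖ ^ 2 ≤ ‖u‖ ^ 2 + ‖(q' 0).2‖ ^ 2 := by
      rw [Prod.norm_def]
      rcases max_cases ‖(q' 0).1‖ ‖(q' 0).2‖ with ⟨h, -⟩ | ⟨h, -⟩
      · rw [h, ← hu]
        nlinarith [sq_nonneg ‖(q' 0).2‖]
      · rw [h]
        nlinarith [sq_nonneg ‖u‖]
    have e9 : ‖q' 0‖ ^ 2 ≤ D * (‖u‖ ^ 2 + ‖w‖ ^ 2) := by
      rw [hD]
      have f1 : 0 ≤ (|CR| * CN) ^ 2 * ‖w‖ ^ 2 := by positivity
      nlinarith [sq_nonneg ‖u‖, sq_nonneg ‖w‖]
    have e10 : ‖u‖ ^ 2 + ‖w‖ ^ 2 ≤ CN * N 0 := by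
      rw [e1]; linarith
    calc ‖q' 0‖ ^ 2 ≤ D * (‖u‖ ^ 2 + ‖w‖ ^ 2) := e9
      _ ≤ D * (CN * N 0) := mul_le_mul_of_nonneg_left e10 hD0.le
      _ = D * CN * N 0 := by ring
  have hXn : ‖XH G p‖ ≤ CX := by
    have e5 : ‖p.2‖ ≤ CN := by rw [hnrm, mul_one] at n1; exact n1
    have e6 : ‖vel G p‖ ≤ CN := by rw [hnrm, mul_one] at n3; exact n3
    have e7 : ‖(XH G p).2‖ ≤ |CR| * CN * CN := by
      rw [hV3]
      refine ((r1 p.1 (vel G p) p.2 hp).2).trans ?_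
      calc CR * ‖vel G p‖ * ‖p.2‖ ≤ |CR| * ‖vel G p‖ * ‖p.2‖ :=
            mul_le_mul_of_nonneg_right (mul_le_mul_of_nonneg_right (le_abs_self _) (norm_nonneg _)) (norm_nonneg _)
        _ ≤ |CR| * CN * CN := mul_le_mul (mul_le_mul_of_nonneg_left e6 (abs_nonneg _)) e5 (norm_nonneg _)
            (mul_nonneg (abs_nonneg _) hCN0.le)
    have e8 : ‖(XH G p).1‖ ≤ CN := e6
    rw [Prod.norm_def, hCX]
    have f0 : 0 ≤ |CR| * CN * CN := mul_nonneg (mul_nonneg (abs_nonneg _) hCN0.le) hCN0.le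
    exact max_le (by linarith) (by linarith)
  have hv : ‖v‖ ^ 2 ≤ 2 * ‖q' 0‖ ^ 2 + 2 * CX ^ 2 * l ^ 2 := by
    have e1 : v = q' 0 + l • XH G p := by
      show v = q 0 - l • XH G (c 0) + l • XH G p
      rw [hq0, hc0]
      abel
    have e2 : ‖v‖ ≤ ‖q' 0‖ + |l| * CX := by
      calc ‖v‖ = ‖q' 0 + l • XH G p‖ := by rw [← e1]
        _ ≤ ‖q' 0‖ + ‖l • XH G p‖ := norm_add_le _ _
        _ ≤ ‖q' 0‖ + |l| * CX := by
          rw [norm_smul, Real.norm_eq_abs]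
          exact add_le_add le_rfl (mul_le_mul_of_nonneg_left hXn (abs_nonneg _))
    have e3 : ‖v‖ ^ 2 ≤ (‖q' 0‖ + |l| * CX) ^ 2 := pow_le_pow_left₀ (norm_nonneg _) e2 2
    have e4 : |l| ^ 2 = l ^ 2 := sq_abs l
    nlinarith [sq_nonneg (‖q' 0‖ - |l| * CX)]
  have hfin : κ / (8 * D * CN) * ‖v‖ ^ 2 - κ * CX ^ 2 / (4 * D * CN) * l ^ 2 ≤ 1 / 4 * (κ * N 0) := by
    have e1 : ‖v‖ ^ 2 ≤ 2 * (D * CN * N 0) + 2 * CX ^ 2 * l ^ 2 := by linarith
    have e2 : κ / (8 * D * CN) * ‖v‖ ^ 2 ≤ κ / (8 * D * CN) * (2 * (D * CN * N 0) + 2 * CX ^ 2 * l ^ 2) :=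
      mul_le_mul_of_nonneg_left e1 (by positivity)
    have e3 : κ / (8 * D * CN) * (2 * (D * CN * N 0) + 2 * CX ^ 2 * l ^ 2) = 1 / 4 * (κ * N 0) + κ * CX ^ 2 / (4 * D * CN) * l ^ 2 := by
      field_simp
      ring
    linarith
  linarith

end

end Pool.Agent.VD
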