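import Pool.Agent.helper84.VD.SpecB3

/-!
# Project VD (MP_07c750_an): row SHW (shadowing on the shell)
-/

set_option autoImplicit false

open scoped ContDiff Topology InnerProductSpace ENNReal
open MeasureTheory Filter Set

namespace Pool.Agent.VD

noncomputable section

theorem SHW_proof (hNSH : NSH_stmt) : SHW_stmt := by
  intro m c C e0 e1 hc hC he0 he01
  obtain ⟨r1, r2, μ, K, hr1, hr1', hr2, hμ, hK, H⟩ := hNSH m c C e0 hc hC he0
  have hC0 : 0 < C := by linarith
  have he1 : e0 ≤ e1 := by nlinarith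
  have hKC : 0 ≤ K * C := by positivity
  have hA : 0 ≤ C * (K ^ 2 * C ^ 2 + 1) := by positivity
  have hB : 0 ≤ C * (K * C) := by positivity
  refine ⟨min (r2 / C) (min e0 1), C * (K ^ 2 * C ^ 2 + 1) + C * (K * C) + K * C + 1, lt_min (by positivity) (lt_min he0 one_pos), by linarith, ?_⟩
  intro G Φ D κ hE hS n ε t w hε hε2 hw ht
  have h1 : ε ≤ r2 / C := le_trans hε2 (min_le_left _ _)
  have h2 : ε ≤ e0 := le_trans hε2 (le_trans (min_le_right _ _) (min_le_left _ _))
  have h3 : ε ≤ 1 := le_trans hε2 (le_trans (min_le_right _ _) (min_le_right _ _))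
  have h4 : C * ε ≤ r2 := by
    rw [le_div_iff₀ hC0] at h1
    linarith
  have hmono : ∀ a : ℝ, 0 ≤ a → a ≤ C * (K ^ 2 * C ^ 2 + 1) + C * (K * C) + K * C → a * ε ≤ (C * (K ^ 2 * C ^ 2 + 1) + C * (K * C) + K * C + 1) * ε := by
    intro a _ ha
    exact mul_le_mul_of_nonneg_right (by linarith) hε
  rcases Nat.eq_zero_or_pos n with hn | hn
  · subst hn
    refine ⟨0, fun _ => 0, ?_, rfl, fun i hi => absurd hi (Nat.not_lt_zero i), ?_⟩
    · rw [norm_zero]
      positivity
    · intro i hi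
      obtain rfl : i = 0 := Nat.le_zero.mp hi
      have e1 : κ (w 0) ((0 : W m), (0 : W m)) = w 0 := hS.zero (w 0) (hw 0 le_rfl)
      rw [e1, hE.f0, (hE.d0 (w 0) (w 0)).2.1]
      positivity
  · -- the Poincare maps
    obtain ⟨idx, hidx, hidx2⟩ : ∃ idx : ℕ → ℕ, (∀ i, idx i < n) ∧ ∀ i < n, idx i = i := by
      refine ⟨fun i => if i < n then i else 0, fun i => ?_, fun i hi => ?_⟩
      · by_cases h : i < n
        · simp only [h, if_true]
        · simp only [h, if_false]
          exact hn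
      · simp only [hi, if_true]
    have hp : ∀ i : ℕ, ∃ (F : Z m → Z m) (τ : Z m → ℝ), HYP c C e0 F ∧ ‖F 0‖ ≤ C * D (Φ (t (idx i)) (w (idx i))) (w (idx i + 1)) ∧
        ∀ a, ‖a‖ ≤ e0 → Φ (τ a) (κ (w (idx i)) a) = κ (w (idx i + 1)) (F a) ∧ |τ a - t (idx i)| ≤ C * (‖a‖ ^ 2 + D (Φ (t (idx i)) (w (idx i))) (w (idx i + 1))) := by
      intro i
      obtain ⟨g1, g2, g3⟩ := ht (idx i) (hidx i)
      obtain ⟨F, τ, a1, a2, _, a4⟩ := hS.pmap (w (idx i)) (hw _ (hidx i).le) (w (idx i + 1)) (hw _ (hidx i)) (t (idx i)) g1 g2 (le_trans g3 h2)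
      exact ⟨F, τ, a1, a2, fun a ha => ⟨(a4 a ha).1, (a4 a ha).2.1⟩⟩
    choose F τ hF hF0 hFτ using hp
    have hF0' : ∀ i, ‖F i 0‖ ≤ C * ε := fun i => le_trans (hF0 i) (mul_le_mul_of_nonneg_left (ht (idx i) (hidx i)).2.2 hC0.le)
    obtain ⟨a, ⟨ho1, ho2⟩, ha0, _, hak⟩ := H F n (C * ε) hF (by positivity) h4 hF0' hn 0 0 (by rw [norm_zero]; exact hr2.le) (by rw [norm_zero]; exact hr2.le)
    have hak' : ∀ k ≤ n, ‖a k‖ ≤ K * C * ε := by
      intro k hk
      have := hak k hk
      rw [norm_zero, mul_zero, mul_zero, add_zero, add_zero] at this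
      linarith
    have hae : ∀ k ≤ n, ‖a k‖ ≤ e0 := fun k hk => le_trans (ho2 k hk) (by linarith)
    have haz : ((0 : W m), (a 0).2) = a 0 := Prod.ext ha0.symm rfl
    set T : ℕ → ℝ := fun i => ∑ j ∈ Finset.range i, τ j (a j) with hT
    have hTs : ∀ i, T (i + 1) = T i + τ i (a i) := fun i => Finset.sum_range_succ _ _
    have hΦ : ∀ i ≤ n, Φ (T i) (κ (w 0) (a 0)) = κ (w i) (a i) := by
      intro i
      induction i with
      | zero =>
        intro _
        show Φ (∑ j ∈ Finset.range 0, τ j (a j)) _ = _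
        rw [Finset.sum_range_zero, hE.f0]
      | succ i ih =>
        intro hi
        have hi' : i < n := hi
        have e1 := ih hi'.le
        have e2 := (hFτ i (a i) (hae i hi'.le)).1
        rw [hidx2 i hi'] at e2
        have e3 : T (i + 1) = τ i (a i) + T i := by rw [hTs]; ring
        rw [e3, hE.fa, e1, e2, ho1 i hi']
    refine ⟨(a 0).2, T, ?_, ?_, ?_, ?_⟩
    · refine le_trans (norm_snd_le (a 0)) (le_trans (hak' 0 (Nat.zero_le _)) ?_)
      exact hmono _ hKC (by linarith)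
    · exact Finset.sum_range_zero _
    · intro i hi
      have e2 := (hFτ i (a i) (hae i hi.le)).2
      rw [hidx2 i hi] at e2
      have e3 := hak' i hi.le
      have e4 : ‖a i‖ ^ 2 ≤ (K * C * ε) ^ 2 := pow_le_pow_left₀ (norm_nonneg _) e3 2
      have e5 : (K * C * ε) ^ 2 ≤ K ^ 2 * C ^ 2 * ε := by
        have : (K * C * ε) ^ 2 = K ^ 2 * C ^ 2 * ε * ε := by ring
        rw [this]
        have h0 : 0 ≤ K ^ 2 * C ^ 2 * ε := by positivity
        nlinarith
      have e6 : |τ i (a i) - t i| ≤ C * (K ^ 2 * C ^ 2 + 1) * ε := by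
        refine le_trans e2 ?_
        have : C * (‖a i‖ ^ 2 + D (Φ (t i) (w i)) (w (i + 1))) ≤ C * (K ^ 2 * C ^ 2 * ε + ε) :=
          mul_le_mul_of_nonneg_left (add_le_add (le_trans e4 e5) (ht i hi).2.2) hC0.le
        linarith
      rw [hTs]
      have e7 : T i + τ i (a i) - T i - t i = τ i (a i) - t i := by ring
      rw [e7]
      exact le_trans e6 (hmono _ hA (by linarith))
    · intro i hi
      rw [haz, hΦ i hi]
      have hwi := hw i hi
      have e1 : D (κ (w i) (a i)) (w i) ≤ C * ‖a i - 0‖ := by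
        have e2 := hS.cmp (w i) hwi (a i) 0 (le_trans (hae i hi) he1) (by rw [norm_zero]; linarith)
        rw [hS.zero (w i) hwi] at e2
        exact e2
      rw [sub_zero] at e1
      have e3 : C * ‖a i‖ ≤ C * (K * C) * ε := by
        have := mul_le_mul_of_nonneg_left (hak' i hi) hC0.le
        linarith
      exact le_trans e1 (le_trans e3 (hmono _ hB (by linarith)))

end

end Pool.Agent.VD
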