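import Pool.Agent.helper99.VD.SpecV

/-!
# Project VD (MP_07c750_an): row UOK (the instance of the detection theorem)
-/

set_option autoImplicit false

open scoped ContDiff Topology InnerProductSpace ENNReal
open MeasureTheory Filter Set

namespace Pool.Agent.VD

noncomputable section

theorem UOK_rev_lft {d : ℕ} {Γ : Type} [Group Γ] [MulAction Γ (V d)] (γ : Γ) (p : P d) : rev (lft γ p) = lft γ (rev p) := by
  unfold rev lft
  rw [map_neg]

theorem UOK_proof (hDPP : DPP_stmt) (hDVV : DVV_stmt) (hDGR : DGR_stmt) (hGLF : GLF_stmt) (hGHL : GHL_stmt) (hGUN : GUN_stmt) (hGEQ : GEQ_stmt) (hUVL : UVL_stmt) (hUSP : USP_stmt) (hUTP : UTP_stmt) (hITA : ITA_stmt) : UOK_stmt := by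
  intro d Γ _ _ K k B χ hK hχ
  obtain ⟨b1, b2, b3, b4, b5, b6, b7, b8, b9, b10, b11⟩ := hDPP d Γ K χ hK hχ
  obtain ⟨v1, v2, v3, v4, v5, v6, v7, v8, v9, v10, cv, hcv, v11⟩ := hDVV d Γ K χ hK hχ
  obtain ⟨Cg, hCg, hgr⟩ := hDGR d Γ K k B χ hK hχ
  obtain ⟨Cs, cs, hCs, hcs, hcs8, hsp⟩ := hUSP d Γ K k B χ hK hχ
  obtain ⟨Ct, ct, hCt, hct, hct8, htp⟩ := hUTP d Γ K k B χ hK hχ
  obtain ⟨Cv, hCv, hvl⟩ := hUVL d Γ K k B hK 0
  obtain ⟨i1, i2, i3⟩ := hITA
  refine ⟨max 2 (max Cg (max Cs Ct)), min cv (min cs (min ct (1 / 8))), le_trans (by norm_num) (le_max_left _ _), lt_min hcv (lt_min hcs (lt_min hct (by norm_num))),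
    le_trans (min_le_right _ _) (le_trans (min_le_right _ _) (min_le_right _ _)), ?_⟩
  intro G Φ hG hΦ act hact C' c0' hC' hc0' hc0''
  have hC2 : 2 ≤ C' := le_trans (le_max_left _ _) hC'
  have hCg' : Cg ≤ C' := le_trans (le_trans (le_max_left _ _) (le_max_right _ _)) hC'
  have hCs' : Cs ≤ C' := le_trans (le_trans (le_trans (le_max_left _ _) (le_max_right _ _)) (le_max_right _ _)) hC'
  have hCt' : Ct ≤ C' := le_trans (le_trans (le_trans (le_max_right _ _) (le_max_right _ _)) (le_max_right _ _)) hC'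
  have hcv' : c0' ≤ cv := le_trans hc0'' (min_le_left _ _)
  have hcs' : c0' ≤ cs := le_trans hc0'' (le_trans (min_le_right _ _) (min_le_left _ _))
  have hct' : c0' ≤ ct := le_trans hc0'' (le_trans (min_le_right _ _) (le_trans (min_le_right _ _) (min_le_left _ _)))
  have hc8' : c0' ≤ 1 / 8 := le_trans hc0'' (le_trans (min_le_right _ _) (le_trans (min_le_right _ _) (min_le_right _ _)))
  obtain ⟨h1, -⟩ := hGHL d Γ G hG.met hK.smooth hG.isom
  obtain ⟨-, -, u3, u4⟩ := hGUN d G Φ hG.met hΦ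
  obtain ⟨w1, -, -⟩ := hvl G hG
  have hn : ∀ p : P d, |Ep G p| ≤ c0' → nrm G p ≤ 3 / 2 := fun p hp => (w1 p).2.2.2.1 (le_trans hp hc8')
  obtain ⟨g1, -, g3⟩ := hgr G Φ hG hΦ
  letI := act
  have hsm : ∀ (γ : Γ) (p : PhS Γ d), γ • p = (lft γ (p : P d) : P d) := hact
  exact {
    dX0 := v3
    dXs := v4
    dXt := v5
    dXi := v6
    dS0 := b3
    dSs := b4
    dSt := b5
    dSi := fun γ p q => by
      rw [hsm, hsm]
      exact b6 γ p q
    inj := fun γ x h => v11 γ x (le_trans h hcv')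
    psg := fun γ p => by
      rw [hsm]
      rfl
    psd := fun p q => by
      have e1 := v8 p q
      have e2 := b2 p q
      show dV Γ χ (p : P d).1 (q : P d).1 ≤ C' * dP Γ χ p q
      nlinarith
    psr := fun p => rfl
    rvr := fun p => by
      have e1 : ∀ q : P d, rev (rev q) = q := fun q => by
        unfold rev
        exact Prod.ext rfl (neg_neg q.2)
      exact e1 p
    rvg := fun γ p => by
      rw [hsm, hsm]
      exact UOK_rev_lft γ p
    rvd := fun p q => by
      show dP Γ χ (rev (p : P d)) (rev (q : P d)) ≤ C' * dP Γ χ p q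
      rw [b8]
      have e2 := b2 p q
      nlinarith
    Eng := fun γ p => by
      rw [hsm]
      show Ep G (lft γ (p : P d)) = Ep G p
      unfold Ep
      rw [(h1 γ p).1]
    Enr := fun p => (w1 p).2.2.2.2.1
    Enf := fun t p _ => by
      show Ep G (Φ t p) = Ep G p
      unfold Ep
      rw [(u3 t p).1]
    fl0 := fun p _ => hΦ.zero p
    fla := fun s t p _ => hΦ.add s t p
    flg := fun γ t p _ => by
      rw [hsm, hsm]
      exact hGEQ d Γ G Φ hG.met hK.smooth hG.isom hΦ γ t p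
    flr := fun t p _ => by
      show Φ t (rev (p : P d)) = rev (Φ (-t) p)
      have e1 := u4 t (-1) (p : P d).1 (p : P d).2
      rw [neg_one_smul, neg_one_mul, neg_one_smul] at e1
      exact e1
    gro := fun p q t η hp hq hη hpq _ => by
      show dP Γ χ (Φ t p) (Φ t q) ≤ C' * Real.exp (C' * |t|) * η
      have e1 := g1 p q t (hn p hp) (hn q hq)
      have e2 : Real.exp (Cg * |t|) ≤ Real.exp (C' * |t|) := Real.exp_le_exp.2 (mul_le_mul_of_nonneg_right hCg' (abs_nonneg t))
      have e3 : Cg * Real.exp (Cg * |t|) ≤ C' * Real.exp (C' * |t|) := mul_le_mul hCg' e2 (Real.exp_nonneg _) (by linarith)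
      exact le_trans e1 (mul_le_mul e3 hpq (b2 p q) (mul_nonneg (by linarith) (Real.exp_nonneg _)))
    sho := fun p u hp _ => by
      show dP Γ χ p (Φ u p) ≤ C' * |u|
      have e1 := g3 p 0 u (hn p hp)
      rw [hΦ.zero, zero_sub, abs_neg] at e1
      exact le_trans e1 (mul_le_mul_of_nonneg_right hCg' (abs_nonneg u))
    sep := fun p u hp hu => by
      show |u| ≤ C' * dV Γ χ (p : P d).1 (Φ u p).1
      exact le_trans (hsp G Φ hG hΦ p u (le_trans hp hcs') (le_trans hu hcs')) (mul_le_mul_of_nonneg_right hCs' (v2 _ _))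
    two := fun p q u u' δ e hp hq he hu hu2 hu' hδ hδu h1' h2' => by
      have he0 : 0 ≤ e := le_trans (abs_nonneg _) hp
      have e0 : 0 ≤ δ / u + u + e := by
        have : 0 ≤ δ / u := div_nonneg hδ hu.le
        linarith
      have e1 := htp G Φ hG hΦ p q u u' δ e hp hq (le_trans he hct') hu (le_trans hu2 hct') (le_trans hu' hct') hδ
        (le_trans (mul_le_mul_of_nonneg_right hCt' hδ) hδu) h1' h2'
      rcases e1 with e1 | e1
      · exact Or.inl (le_trans e1 (mul_le_mul_of_nonneg_right hCt' e0))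
      · exact Or.inr (le_trans e1 (mul_le_mul_of_nonneg_right hCt' e0))
    thn := fun f t p _ ht hf _ => by
      show 0 ≤ 1 / 2 * ∫ s in (0 : ℝ)..t, f (Φ s p).1
      have := i1 (fun s => f (Φ s p).1) t ht (fun s => hf _)
      positivity
    th1 := fun f t a l p _ ha hl hal hf hc h => by
      show l ≤ C' * (1 / 2 * ∫ s in (0 : ℝ)..t, f (Φ s p).1)
      have e1 : l ≤ ∫ s in (0 : ℝ)..t, f (Φ s p).1 := i2 (fun s => f (Φ s p).1) t a l ha hl hal hc (fun s => hf _) h
      nlinarith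
    th2 := fun f t p _ ht h => by
      refine i3 (fun s => f (Φ s p).1) t ht fun h0 => h ?_
      show 1 / 2 * (∫ s in (0 : ℝ)..t, f (Φ s p).1) = 0
      rw [h0, mul_zero] }

end

end Pool.Agent.VD
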