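import Pool.Agent.helper80.VD.SpecF

/-!
# Project VD (MP_07c750_an), block D: INVARIANT DISTANCES, FUNDAMENTAL DOMAIN, MORE UNIFORM BOUNDS, rows `vd:X`

RULES as in `SpecF` (import `Pool.Agent.helper80.VD.SpecD`).

`dV Γ χ` (on `V d`) and `dP Γ χ` (on `P d`): `Γ`-invariant distances which depend only on the action and on a cut-off `χ` (`Ctf K χ`), not on the metric: the sup over `γ : Γ` of the distance of the images of `γ • x`, `γ • y` under `x ↦ (χ x • x, 3 χ x)`, resp. of `lft γ p`, `lft γ q` under `(x, ξ) ↦ (χ x • x, χ x • ξ, 3 χ x)`.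
-/

set_option autoImplicit false

open scoped ContDiff Topology InnerProductSpace
open MeasureTheory Filter Set

namespace Pool.Agent.VD

noncomputable section

variable {d : ℕ}

/-- cut-offs -/
structure Ctf (K : Set (V d)) (χ : V d → ℝ) : Prop where
  smooth : ContDiff ℝ ∞ χ
  supp : HasCompactSupport χ
  bd : ∀ x, 0 ≤ χ x ∧ χ x ≤ 1
  one : ∀ x ∈ Metric.cthickening 1 K, χ x = 1

/-- the chart map on `V d` -/
def embV (χ : V d → ℝ) (x : V d) : V d × ℝ := (χ x • x, 3 * χ x)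

/-- the chart map on `P d` -/
def embP (χ : V d → ℝ) (p : P d) : V d × V d × ℝ := (χ p.1 • p.1, χ p.1 • p.2, 3 * χ p.1)

/-- the invariant distance on `V d` -/
def dV (Γ : Type) [Group Γ] [MulAction Γ (V d)] (χ : V d → ℝ) (x y : V d) : ℝ := ⨆ γ : Γ, ‖embV χ (γ • x) - embV χ (γ • y)‖

/-- the invariant distance on `P d` -/
def dP (Γ : Type) [Group Γ] [MulAction Γ (V d)] (χ : V d → ℝ) (p q : P d) : ℝ := ⨆ γ : Γ, ‖embP χ (lft γ p) - embP χ (lft γ q)‖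

/-- the reversal -/
def rev (p : P d) : P d := (p.1, -p.2)

/-- **Row DCT** (short). `exists_contDiff_tsupport_subset` or `ContDiffBump` (a bump function equal to `1` on a closed ball containing the compact set `cthickening 1 K`). -/
def DCT_stmt : Prop := ∀ (d : ℕ) (K : Set (V d)), IsCompact K → ∃ χ : V d → ℝ, Ctf K χ

/-- **Row DLL** (UNIFORM BOUNDS OF THE LIFTS; short-medium; from GLF). The set of the `γ` is finite (`FdK.proper` for the closed ball; `‖x‖ ≤ m` and `‖γ • x‖ ≤ m`), for each `γ` the function is continuous on a compact set. -/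
def DLL_stmt : Prop := ∀ (d : ℕ) (Γ : Type) [Group Γ] [MulAction Γ (V d)] (K : Set (V d)), FdK Γ K → ∀ (m n : ℕ) (r : ℝ), ∃ C : ℝ, ∀ γ : Γ, (∃ x : V d, ‖x‖ ≤ m ∧ ‖γ • x‖ ≤ m) →
  (∀ p : P d, ‖p.1‖ ≤ m → ‖p.2‖ ≤ r → ‖iteratedFDeriv ℝ n (lft γ : P d → P d) p‖ ≤ C) ∧ ∀ x : V d, ‖x‖ ≤ m → ‖iteratedFDeriv ℝ n (fun y : V d => γ • y) x‖ ≤ C

/-- **Row DPP** (`dP` IS AN INVARIANT DISTANCE; medium; from GLF, DLL). For given `p` only finitely many `γ` satisfy `γ • p.1 ∈ tsupport χ` (`proper` for `tsupport χ ∪ {p.1}`), `embP χ (lft γ p) = 0` for the others: bounded ranges. Triangle inequality, symmetry: `ciSup_le`, `le_ciSup`. Invariance: `lft (γ δ) = lft γ ∘ lft δ` (GLF), reindex the sup by `γ ↦ γ δ` (`Equiv.mulRight`).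
UPPER BOUND: for `‖x‖, ‖y‖ ≤ m` only the finitely many `γ` with `γ • (ball m) ∩ tsupport χ ≠ ∅` matter, `embP χ ∘ lft γ` is smooth, so Lipschitz on the convex compact set. LOWER BOUND: the term `γ = 1`: `3 (1 - χ y) ≤ dP ≤ 1/2`, `χ y ≥ 5/6`, `‖x - χ y • y‖ ≤ dP`, `y - x = (χ y)⁻¹ (χ y • y - x) + ((χ y)⁻¹ - 1) x`; the same for `ξ`.
CONTINUITY: `|dP p q - dP p' q'| ≤ dP p p' + dP q q'` and the upper bound. `dP p q ≤ 2 max` of `‖embP χ (lft γ p)‖`. -/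
def DPP_stmt : Prop := ∀ (d : ℕ) (Γ : Type) [Group Γ] [MulAction Γ (V d)] (K : Set (V d)) (χ : V d → ℝ), FdK Γ K → Ctf K χ →
  (∀ p q : P d, BddAbove (range fun γ : Γ => ‖embP χ (lft γ p) - embP χ (lft γ q)‖)) ∧ (∀ p q : P d, 0 ≤ dP Γ χ p q) ∧ (∀ p : P d, dP Γ χ p p = 0) ∧ (∀ p q : P d, dP Γ χ p q = dP Γ χ q p) ∧ (∀ p q r : P d, dP Γ χ p r ≤ dP Γ χ p q + dP Γ χ q r) ∧
  (∀ (γ : Γ) (p q : P d), dP Γ χ (lft γ p) (lft γ q) = dP Γ χ p q) ∧ Continuous (Function.uncurry (dP Γ χ : P d → P d → ℝ)) ∧ (∀ p q : P d, dP Γ χ (rev p) (rev q) = dP Γ χ p q) ∧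
  (∀ r : ℝ, ∃ C : ℝ, 1 ≤ C ∧ ∀ p q : P d, p.1 ∈ K → ‖p.2‖ ≤ r → dP Γ χ p q ≤ 1 / 2 → ‖p - q‖ ≤ C * dP Γ χ p q) ∧
  (∀ (m : ℕ) (r : ℝ), ∃ C : ℝ, 1 ≤ C ∧ ∀ p q : P d, ‖p.1‖ ≤ m → ‖q.1‖ ≤ m → ‖p.2‖ ≤ r → ‖q.2‖ ≤ r → dP Γ χ p q ≤ C * ‖p - q‖) ∧
  ∀ (r : ℝ) (p q : P d), 0 ≤ r → (∀ γ : Γ, ‖embP χ (lft γ p)‖ ≤ r ∧ ‖embP χ (lft γ q)‖ ≤ r) → dP Γ χ p q ≤ 2 * r

/-- **Row DVV** (`dV` is an invariant distance; short-medium; the same proof as DPP, simpler). `dV p.1 q.1 ≤ dP p q`: the components of `embV` are components of `embP` and `(lft γ p).1 = γ • p.1` (both ranges are bounded: DPP). INJECTIVITY: by invariance (`γ ↦ δ γ δ⁻¹`) we may assume `x ∈ K`; then `‖γ • x - x‖ ≤ C c` by the lower bound, so `γ` is in the finite set of the `γ` with `γ • x ∈ cthickening 1 K` for some `x ∈ K`;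
for each `γ ≠ 1` of this set `‖γ • x - x‖` has a positive minimum on `K` (`free`). -/
def DVV_stmt : Prop := ∀ (d : ℕ) (Γ : Type) [Group Γ] [MulAction Γ (V d)] (K : Set (V d)) (χ : V d → ℝ), FdK Γ K → Ctf K χ →
  (∀ x y : V d, BddAbove (range fun γ : Γ => ‖embV χ (γ • x) - embV χ (γ • y)‖)) ∧ (∀ x y : V d, 0 ≤ dV Γ χ x y) ∧ (∀ x : V d, dV Γ χ x x = 0) ∧ (∀ x y : V d, dV Γ χ x y = dV Γ χ y x) ∧ (∀ x y z : V d, dV Γ χ x z ≤ dV Γ χ x y + dV Γ χ y z) ∧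
  (∀ (γ : Γ) (x y : V d), dV Γ χ (γ • x) (γ • y) = dV Γ χ x y) ∧ Continuous (Function.uncurry (dV Γ χ : V d → V d → ℝ)) ∧ (∀ p q : P d, dV Γ χ p.1 q.1 ≤ dP Γ χ p q) ∧
  (∃ C : ℝ, 1 ≤ C ∧ ∀ x y : V d, x ∈ K → dV Γ χ x y ≤ 1 / 2 → ‖x - y‖ ≤ C * dV Γ χ x y) ∧ (∀ m : ℕ, ∃ C : ℝ, 1 ≤ C ∧ ∀ x y : V d, ‖x‖ ≤ m → ‖y‖ ≤ m → dV Γ χ x y ≤ C * ‖x - y‖) ∧
  ∃ c : ℝ, 0 < c ∧ ∀ (γ : Γ) (x : V d), dV Γ χ (γ • x) x ≤ c → γ = 1

/-- **Row DGR** (GRONWALL FOR `dP`; medium; from DPP, DLL, GLP, GCF, GNR, GUN, GEQ, GHL). UNIT STEP, `|t| ≤ 1`: if `dP p q ≤ c0` move `p.1` to `K` (invariance, GEQ, GHL): `‖p - q‖ ≤ C dP p q` (DPP, GNR: `‖p.2‖ ≤ C`) is so small that GLP gives `‖Φ t p - Φ t q‖ ≤ C² dP p q`; both base points are in a ball of radius `m'` (GCF), so `dP (Φ t p) (Φ t q) ≤ C³ dP p q` (DPP, upper bound).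
If `dP p q > c0`: `dP (Φ t p) (Φ t q) ≤ C' ≤ (C'/c0) dP p q` (the last part of DPP; `‖embP χ (lft γ p)‖ ≤ C'` because `nrm` is invariant and `‖ξ‖ ≤ C nrm` on the support of `χ`). Then iterate `⌈|t|⌉` times (`nrm` is preserved). -/
def DGR_stmt : Prop := ∀ (d : ℕ) (Γ : Type) [Group Γ] [MulAction Γ (V d)] (K : Set (V d)) (k : ℝ) (B : ℕ → ℕ → ℝ) (χ : V d → ℝ), FdK Γ K → Ctf K χ → ∃ C : ℝ, 1 ≤ C ∧ ∀ (G : V d → V d →L[ℝ] V d) (Φ : ℝ → P d → P d), Cls Γ K k B G → IsFlow G Φ →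
  (∀ (p q : P d) (t : ℝ), nrm G p ≤ 3 / 2 → nrm G q ≤ 3 / 2 → dP Γ χ (Φ t p) (Φ t q) ≤ C * Real.exp (C * |t|) * dP Γ χ p q) ∧ (∀ p q : P d, nrm G p ≤ 3 / 2 → nrm G q ≤ 3 / 2 → dP Γ χ p q ≤ C) ∧
  ∀ (p : P d) (s t : ℝ), nrm G p ≤ 3 / 2 → dP Γ χ (Φ s p) (Φ t p) ≤ C * |s - t|

/-- **Row DFD** (FUNDAMENTAL DOMAIN; medium). `Γ` is countable: `V d` is a countable union of balls `B_n`, and `{γ | γ • K ∩ B_n ≠ ∅}` is finite (`proper` for `K ∪ B_n`). For `x ∈ K` there is an open `U ∋ x` with `γ • U ∩ U = ∅` for all `γ ≠ 1` (only finitely many `γ` move a point of the closed `1`-ball around `x` into this ball (`proper`); `γ • x ≠ x` (`free`), continuity). `K` is covered by finitely many `U_1, .., U_n`.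
`F_i = (K ∩ U_i) \\ ⋃_(j<i) ⋃_γ γ⁻¹ (K ∩ U_j)`, `F0 = ⋃ F_i`: measurable. For `x : V d` let `i` be the least index such that some `γ • x ∈ K ∩ U_i` (`cover`): this `γ` is unique (`U_i`), `γ • x ∈ F_i`, and no `γ' • x` is in another `F_j`. -/
def DFD_stmt : Prop := ∀ (d : ℕ) (Γ : Type) [Group Γ] [MulAction Γ (V d)] (K : Set (V d)), FdK Γ K → Countable Γ ∧ ∃ F0 : Set (V d), MeasurableSet F0 ∧ F0 ⊆ K ∧ ∀ x : V d, ∃! γ : Γ, γ • x ∈ F0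

/-- **Row GJT** (JOINT UNIFORM BOUNDS; short-medium; from FDB, GCF, GUX, GUN). On `P d × ℝ` the field `f'(x, s) = (s • XH G x, 0)` is smooth and has the smooth flow `(r, (x, s)) ↦ (Φ (r s) x, s)`; along the orbit of `(p, t)`, `|r| ≤ 1`, the derivatives of `f'` are bounded (GCF, GUX): FDB at `r = 1` bounds the derivatives of `(x, s) ↦ (Φ s x, s)` at `(p, t)`. -/
def GJT_stmt : Prop := ∀ (d : ℕ) (Γ : Type) [Group Γ] [MulAction Γ (V d)] (K : Set (V d)) (k : ℝ) (B : ℕ → ℕ → ℝ), FdK Γ K → ∀ (m n : ℕ) (T : ℝ), ∃ C : ℝ, ∀ (G : V d → V d →L[ℝ] V d) (Φ : ℝ → P d → P d), Cls Γ K k B G → IsFlow G Φ →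
  ∀ (p : P d) (t : ℝ), ‖p.1‖ ≤ m → nrm G p ≤ 2 → |t| ≤ T → ∀ j ≤ n, ‖iteratedFDeriv ℝ j (fun q : ℝ × P d => Φ q.1 q.2) (t, p)‖ ≤ C

end

end Pool.Agent.VD
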