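import Pool.Agent.helper16.CRO.CFL
import Pool.Agent.helper16.CRO.FLX
import Pool.Agent.helper16.CRO.LIN
import Pool.Agent.helper16.CRO.DIF
import Pool.Agent.helper16.CRO.DCT
import Pool.Agent.helper32.CRO.HES
import Pool.Agent.helper63.CRO.SMP
import Pool.Agent.helper36.CRO.DT1
import Pool.Agent.helper11.CRO.MPR
import Pool.Agent.helper85.VD.FSM
import Pool.Agent.helper89.VD.FUL
import Pool.Agent.helper61.VD.FGE
import Pool.Agent.helper47.VD.FCP
import Pool.Agent.helper66.VD.FC1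
import Pool.Agent.helper18.VD.FDB
import Pool.Agent.helper38.VD.GIN
import Pool.Agent.helper9.VD.GXH
import Pool.Agent.helper49.VD.GLF
import Pool.Agent.helper14.VD.GHL
import Pool.Agent.helper69.VD.GMP
import Pool.Agent.helper71.VD.GSC
import Pool.Agent.helper87.VD.GGC
import Pool.Agent.helper25.VD.GFL
import Pool.Agent.helper58.VD.GUN
import Pool.Agent.helper33.VD.GEQ
import Pool.Agent.helper15.VD.GSY
import Pool.Agent.helper34.VD.GUI
import Pool.Agent.helper35.VD.GUX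
import Pool.Agent.helper23.VD.GNR
import Pool.Agent.helper90.VD.GCF
import Pool.Agent.helper33.VD.GDB
import Pool.Agent.helper92.VD.GLP

/-!
# Project VD (MP_07c750_an), block F (the geodesic flow): ALL ROWS ARE CLOSED
-/

set_option autoImplicit false

namespace Pool.Agent.VD

theorem F_CFL : CRO.CFL_stmt := CRO.CFL CRO.FLX CRO.LIN CRO.DIF CRO.DCT
theorem F_SMP : CRO.SMP_stmt := CRO.SMP CRO.HES
theorem F_FSM : FSM_stmt := FSM_proof F_CFL
theorem F_FUL : FUL_stmt := FUL_proof F_CFL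
theorem F_FGE : FGE_stmt := FGE_proof
theorem F_FC1 : FC1_stmt := FC1_proof
theorem F_FCP : FCP_stmt := FCP_proof F_FSM F_FC1
theorem F_FDB : FDB_stmt := FDB_proof F_FC1
theorem F_GIN : GIN_stmt := GIN_proof
theorem F_GXH : GXH_stmt := GXH_proof F_GIN
theorem F_GLF : GLF_stmt := GLF_proof
theorem F_GHL : GHL_stmt := GHL_proof F_GIN F_GXH F_GLF
theorem F_GMP : GMP_stmt := GMP_proof F_GLF CRO.DT1
theorem F_GSC : GSC_stmt := GSC_proof F_GIN
theorem F_GGC : GGC_stmt := GGC_proof F_GXH F_GLF F_GHL F_GSC F_FUL F_FGE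
theorem F_GFL : GFL_stmt := GFL_proof F_GXH F_GGC F_FCP
theorem F_GUN : GUN_stmt := GUN_proof F_GXH F_FC1
theorem F_GEQ : GEQ_stmt := GEQ_proof F_GUN F_GLF F_GHL
theorem F_GSY : GSY_stmt := GSY_proof F_GXH F_GUN F_SMP CRO.DT1 CRO.MPR
theorem F_GUI : GUI_stmt := GUI_proof F_GIN
theorem F_GUX : GUX_stmt := GUX_proof F_GUI F_GXH F_GIN
theorem F_GNR : GNR_stmt := GNR_proof F_GIN
theorem F_GCF : GCF_stmt := GCF_proof F_GNR F_GUN F_GEQ F_GHL F_GLF
theorem F_GDB : GDB_stmt := GDB_proof F_GCF F_GUX F_GUN F_FDB F_GXH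
theorem F_GLP : GLP_stmt := GLP_proof F_GDB F_GNR F_GUN F_GXH F_GUX

end Pool.Agent.VD
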