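import Pool.Agent.helper80.VD.AllF
import Pool.Agent.helper80.VD.FLD
import Pool.Agent.helper20.VD.DCT
import Pool.Agent.helper63.VD.DLL
import Pool.Agent.helper25.VD.DPP
import Pool.Agent.helper14.VD.DVV
import Pool.Agent.helper69.VD.DGR
import Pool.Agent.helper92.VD.DFD
import Pool.Agent.helper61.VD.GJT

/-!
# Project VD (MP_07c750_an), block D (invariant distances, fundamental domain) and row FLD: ALL ROWS ARE CLOSED
-/

set_option autoImplicit false

namespace Pool.Agent.VD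

theorem D_DCT : DCT_stmt := DCT_proof
theorem D_DLL : DLL_stmt := DLL_proof F_GLF
theorem D_DPP : DPP_stmt := DPP_proof F_GLF D_DLL
theorem D_DVV : DVV_stmt := DVV_proof F_GLF D_DLL D_DPP
theorem D_DGR : DGR_stmt := DGR_proof F_GLF D_DPP D_DLL F_GLP F_GCF F_GNR F_GUN F_GEQ F_GHL
theorem D_DFD : DFD_stmt := DFD_proof
theorem D_GJT : GJT_stmt := GJT_proof F_FDB F_GCF F_GUX F_GUN F_GXH F_FC1
theorem D_FLD : FLD_stmt := FLD_proof F_GLF F_GHL F_GMP F_GUN F_GEQ F_GSY F_GNR D_DPP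

end Pool.Agent.VD
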