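import Pool.Agent.helper80.VD.AllF
import Pool.Agent.helper80.VD.SpecG
import Pool.Agent.helper16.VD.GCH
import Pool.Agent.helper29.VD.GVL
import Pool.Agent.helper23.VD.GJC
import Pool.Agent.helper85.VD.GRI
import Pool.Agent.helper40.VD.GQD
import Pool.Agent.helper43.VD.GNT
import Pool.Agent.helper78.VD.GQN
import Pool.Agent.helper66.VD.GUR
import Pool.Agent.helper33.VD.GNG
import Pool.Agent.helper38.VD.GQG
import Pool.Agent.helper80.VD.GJQ
import Pool.Agent.helper58.VD.GNK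

/-!
# Project VD (MP_07c750_an), block G (curvature, Jacobi fields): ALL ROWS ARE CLOSED
-/

set_option autoImplicit false

namespace Pool.Agent.VD

theorem G_GCH : GCH_stmt := GCH_proof F_GIN
theorem G_GVL : GVL_stmt := GVL_proof F_GIN F_GXH G_GCH
theorem G_GJC : GJC_stmt := GJC_proof F_GIN F_GXH G_GCH G_GVL
theorem G_GRI : GRI_stmt := GRI_proof F_GIN F_GXH G_GCH G_GVL G_GJC CRO.HES
theorem G_GQD : GQD_stmt := GQD_proof F_GIN G_GCH G_GVL G_GJC
theorem G_GNT : GNT_stmt := GNT_proof F_GIN F_GLF F_GHL F_GXH G_GCH G_GVL G_GJC G_GQD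
theorem G_GQN : GQN_stmt := GQN_proof F_GLF G_GNT
theorem G_GUR : GUR_stmt := GUR_proof F_GIN F_GUI G_GCH
theorem G_GNG : GNG_stmt := GNG_proof F_GLF G_GNT G_GUR F_GNR G_GRI
theorem G_GQG : GQG_stmt := GQG_proof F_GIN G_GVL G_GQD G_GRI G_GNG
theorem G_GJQ : GJQ_stmt := GJQ_proof F_GXH F_GUN F_GNR F_GCF G_GVL G_GQD G_GQG G_GUR F_GDB
theorem G_GNK : GNK_stmt := GNK_proof G_GRI

end Pool.Agent.VD
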