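import Mathlib

/-!
# Project VD (MP_07c750_an, quantum unique ergodicity in every dimension): DEFINITIONS

`M = Γ \ ℝ^d`, `ℝ^d` with a smooth `Γ`-invariant Riemannian metric `g`. By the theorem of Cartan and Hadamard every compact connected Riemannian manifold of dimension `d` without boundary and with negative sectional curvature is of this form (`Γ` = the group of deck transformations of the universal covering).

A metric on `V = ℝ^d` is a field `G` of symmetric positive definite operators, `g_x(u, v) = ⟪G x u, v⟫`. Its inverse is `(G x).inverse`. The metric `e^f g` is the field `fun x => Real.exp (f x) • G x`.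

Phase space: `P = V × V`, a covector is identified with a vector by the Euclidean inner product.
-/

set_option autoImplicit false

open scoped ContDiff Topology InnerProductSpace
open MeasureTheory Filter Set

namespace Pool.Agent.VD

noncomputable section

/-! ## 1. Riemannian geometry -/

/-- the Euclidean space of dimension `d` -/
abbrev V (d : ℕ) : Type := EuclideanSpace ℝ (Fin d)

variable {d : ℕ}

/-- `g_x(u, v) = ⟪G x u, v⟫` is a smooth Riemannian metric -/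
structure IsMetric (G : V d → V d →L[ℝ] V d) : Prop where
  smooth : ContDiff ℝ ∞ G
  symm : ∀ x u v, ⟪G x u, v⟫_ℝ = ⟪u, G x v⟫_ℝ
  pos : ∀ x u, u ≠ 0 → 0 < ⟪G x u, u⟫_ℝ

/-- the Christoffel symbols `C_x(u, v)`: `2 g(C(u, v), w) = (D_u g)(v, w) + (D_v g)(u, w) - (D_w g)(u, v)`; the Levi-Civita connection is `∇_u v = D_u v + C(u, v)` -/
def Chr (G : V d → V d →L[ℝ] V d) (x u v : V d) : V d :=
  (G x).inverse ((1 / 2 : ℝ) • (fderiv ℝ G x u v + fderiv ℝ G x v u - gradient (fun y => ⟪G y u, v⟫_ℝ) x))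

/-- the curvature tensor `R(u, v) w = ∇_u ∇_v w - ∇_v ∇_u w` (`u, v, w` constant) -/
def Riem (G : V d → V d →L[ℝ] V d) (x u v w : V d) : V d :=
  fderiv ℝ (fun y => Chr G y v w) x u - fderiv ℝ (fun y => Chr G y u w) x v + Chr G x u (Chr G x v w) - Chr G x v (Chr G x u w)

/-- all sectional curvatures `g(R(u, v) v, u) / (g(u, u) g(v, v) - g(u, v)²)` are negative -/
def NegativelyCurved (G : V d → V d →L[ℝ] V d) : Prop :=
  ∀ x u v : V d, LinearIndependent ℝ ![u, v] → ⟪G x (Riem G x u v v), u⟫_ℝ / (⟪G x u, u⟫_ℝ * ⟪G x v, v⟫_ℝ - ⟪G x u, v⟫_ℝ ^ 2) < 0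

/-- the density of the Riemannian volume with respect to the Lebesgue measure -/
def dens (G : V d → V d →L[ℝ] V d) (x : V d) : ℝ := Real.sqrt (G x).det

/-- the Laplace-Beltrami operator `|g|^(-1/2) ∑ ∂_i (|g|^(1/2) g^(ij) ∂_j φ)` -/
def lap (G : V d → V d →L[ℝ] V d) (φ : V d → ℂ) (x : V d) : ℂ :=
  ((dens G x)⁻¹ : ℝ) * ∑ i : Fin d, fderiv ℝ (fun y => ((dens G y : ℝ) : ℂ) * fderiv ℝ φ y ((G y).inverse (EuclideanSpace.single i 1))) x (EuclideanSpace.single i 1)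

/-- `Γ` acts on `ℝ^d` freely, properly discontinuously and cocompactly by smooth isometries of the metric -/
structure Deck (Γ : Type) [Group Γ] [MulAction Γ (V d)] (G : V d → V d →L[ℝ] V d) : Prop where
  smooth : ∀ γ : Γ, ContDiff ℝ ∞ fun x : V d => γ • x
  isom : ∀ (γ : Γ) (x u v : V d), ⟪G (γ • x) (fderiv ℝ (fun y : V d => γ • y) x u), fderiv ℝ (fun y : V d => γ • y) x v⟫_ℝ = ⟪G x u, v⟫_ℝ
  free : ∀ (γ : Γ) (x : V d), γ • x = x → γ = 1
  proper : ∀ K : Set (V d), IsCompact K → {γ : Γ | ∃ x ∈ K, γ • x ∈ K}.Finite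
  cocompact : ∃ K : Set (V d), IsCompact K ∧ ∀ x : V d, ∃ γ : Γ, γ • x ∈ K

/-- `Γ`-invariant functions, that is, functions on `M` -/
def Inv (Γ : Type) [Group Γ] [MulAction Γ (V d)] {α : Type} (h : V d → α) : Prop := ∀ (γ : Γ) (x : V d), h (γ • x) = h x

/-- `φ` is an eigenfunction on `M` of the Laplace-Beltrami operator, `Δ φ + μ φ = 0` -/
def Eigenfunction (Γ : Type) [Group Γ] [MulAction Γ (V d)] (G : V d → V d →L[ℝ] V d) (μ : ℝ) (φ : V d → ℂ) : Prop :=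
  ContDiff ℝ 2 φ ∧ Inv Γ φ ∧ ∀ x, lap G φ x + (μ : ℂ) * φ x = 0

/-- quantum unique ergodicity for `M` (`F` is a fundamental domain): for every continuous function `h` on `M` and `ε > 0` all eigenfunctions `φ` of large eigenvalue satisfy `|∫ h dν - ⟨h⟩ ν(M)| ≤ ε ν(M)`, `ν = |φ|² dvol`, `⟨h⟩` the mean value of `h` for the Riemannian volume -/
def QUE (Γ : Type) [Group Γ] [MulAction Γ (V d)] (F : Set (V d)) (G : V d → V d →L[ℝ] V d) : Prop :=
  ∀ h : V d → ℝ, Continuous h → Inv Γ h → ∀ ε : ℝ, 0 < ε → ∃ μ₀ : ℝ, ∀ (μ : ℝ) (φ : V d → ℂ), μ₀ ≤ μ → Eigenfunction Γ G μ φ →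
    |(∫ x in F, h x * ‖φ x‖ ^ 2 * dens G x) - (∫ x in F, h x * dens G x) / (∫ x in F, dens G x) * ∫ x in F, ‖φ x‖ ^ 2 * dens G x| ≤
      ε * ∫ x in F, ‖φ x‖ ^ 2 * dens G x

/-! ## 2. The geodesic flow on phase space, `H = |ξ|² / 2` -/

/-- phase space -/
abbrev P (d : ℕ) : Type := V d × V d

/-- the inverse metric `h^(ij)` -/
def IG (G : V d → V d →L[ℝ] V d) (x : V d) : V d →L[ℝ] V d := (G x).inverse

/-- the Hamiltonian `H(x, ξ) = g^(-1)_x(ξ, ξ) / 2` -/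
def Ham (G : V d → V d →L[ℝ] V d) (p : P d) : ℝ := ⟪IG G p.1 p.2, p.2⟫_ℝ / 2

/-- the norm `|ξ|_x` -/
def nrm (G : V d → V d →L[ℝ] V d) (p : P d) : ℝ := Real.sqrt ⟪IG G p.1 p.2, p.2⟫_ℝ

/-- the velocity `x' = g^(-1) ξ` -/
def vel (G : V d → V d →L[ℝ] V d) (p : P d) : V d := IG G p.1 p.2

/-- the Hamiltonian vector field -/
def XH (G : V d → V d →L[ℝ] V d) (p : P d) : P d := (vel G p, -gradient (fun y => Ham G (y, p.2)) p.1)

/-- the lift of `γ` to phase space: `(x, ξ) ↦ (γ x, (Dγ(x)⁻¹)* ξ)` -/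
def lft {Γ : Type} [Group Γ] [MulAction Γ (V d)] (γ : Γ) (p : P d) : P d :=
  (γ • p.1, (ContinuousLinearMap.adjoint (fderiv ℝ (fun y : V d => γ • y) p.1)).inverse p.2)

/-- `Φ` is the geodesic flow -/
structure IsFlow (G : V d → V d →L[ℝ] V d) (Φ : ℝ → P d → P d) : Prop where
  smooth : ContDiff ℝ ∞ fun q : ℝ × P d => Φ q.1 q.2
  zero : ∀ p, Φ 0 p = p
  add : ∀ s t p, Φ (s + t) p = Φ s (Φ t p)
  deriv : ∀ t p, HasDerivAt (fun s => Φ s p) (XH G (Φ t p)) t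

/-- the symplectic form: `ω((u, η), (u', η')) = ⟪η, u'⟫ - ⟪η', u⟫` -/
def omg (v w : P d) : ℝ := ⟪v.2, w.1⟫_ℝ - ⟪w.2, v.1⟫_ℝ

/-! ## 3. Horizontal and vertical components of a tangent vector `(u, η)` of phase space at `p = (x, ξ)` -/

/-- the transpose of `w ↦ C_x(u, w)`: `⟪ChT u ξ, w⟫ = ⟪ξ, C_x(u, w)⟫` -/
def ChT (G : V d → V d →L[ℝ] V d) (x u ξ : V d) : V d := ∑ i : Fin d, ⟪ξ, Chr G x u (EuclideanSpace.single i 1)⟫_ℝ • EuclideanSpace.single i 1

/-- the covariant derivative of the covector `ξ` in the direction `(u, η)`: `W = η - C(u, ·)ᵀ ξ`; along the flow `∇u = g^(-1) W`, `∇W = -g R(u, v) v` (Jacobi equation), `v = g^(-1) ξ` -/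
def Wc (G : V d → V d →L[ℝ] V d) (p q : P d) : V d := q.2 - ChT G p.1 q.1 p.2

/-- `Q = ⟪W, u⟫ = g(∇u, u)` -/
def Qc (G : V d → V d →L[ℝ] V d) (p q : P d) : ℝ := ⟪Wc G p q, q.1⟫_ℝ

/-! ## 4. The class of metrics (all constants depend only on `Γ`, `K`, `k`, `B`) -/

/-- `K` is compact, convex and `Γ K = ℝ^d` -/
structure FdK (Γ : Type) [Group Γ] [MulAction Γ (V d)] (K : Set (V d)) : Prop where
  compact : IsCompact K
  convex : Convex ℝ K
  cover : ∀ x : V d, ∃ γ : Γ, γ • x ∈ K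
  smooth : ∀ γ : Γ, ContDiff ℝ ∞ fun x : V d => γ • x
  free : ∀ (γ : Γ) (x : V d), γ • x = x → γ = 1
  proper : ∀ L : Set (V d), IsCompact L → {γ : Γ | ∃ x ∈ L, γ • x ∈ L}.Finite

/-- metrics of curvature at most `-k` (on `K`, hence everywhere), with bounded derivatives: all derivatives are bounded on every ball, the bounds are uniform in the class -/
structure Cls (Γ : Type) [Group Γ] [MulAction Γ (V d)] (K : Set (V d)) (k : ℝ) (B : ℕ → ℕ → ℝ) (G : V d → V d →L[ℝ] V d) : Prop where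
  met : IsMetric G
  isom : ∀ (γ : Γ) (x u v : V d), ⟪G (γ • x) (fderiv ℝ (fun y : V d => γ • y) x u), fderiv ℝ (fun y : V d => γ • y) x v⟫_ℝ = ⟪G x u, v⟫_ℝ
  kpos : 0 < k
  lo : ∀ (m : ℕ) (x u : V d), ‖x‖ ≤ m → ‖u‖ ^ 2 ≤ B m 0 * ⟪G x u, u⟫_ℝ
  bd : ∀ (m n : ℕ) (x : V d), ‖x‖ ≤ m → ‖iteratedFDeriv ℝ n G x‖ ≤ B m n
  neg : ∀ x ∈ K, ∀ u v, ⟪G x (Riem G x u v v), u⟫_ℝ ≤ -k * (⟪G x u, u⟫_ℝ * ⟪G x v, v⟫_ℝ - ⟪G x u, v⟫_ℝ ^ 2)

end

end Pool.Agent.VD
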