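import Pool.Agent.helper84.VD.SpecB3

/-!
# Project VD (MP_07c750_an): row SHC (shadowing with energies)
-/

set_option autoImplicit false

open scoped ContDiff Topology InnerProductSpace ENNReal
open MeasureTheory Filter Set

namespace Pool.Agent.VD

noncomputable section

theorem SHC_sc {d : ℕ} (a b : ℝ) (p : P d) : sc a (sc b p) = sc (a * b) p := by
  unfold sc
  rw [smul_smul]

theorem SHC_sc1 {d : ℕ} (p : P d) : sc 1 p = p := by
  unfold sc
  rw [one_smul]

theorem SHC_proof (hSHW : SHW_stmt) : SHC_stmt := by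
  intro m c C e0 e1 hc hC he0 he01
  obtain ⟨e2, K, he2, hK, H⟩ := hSHW m c C e0 e1 hc hC he0 he01
  have hC0 : 0 < C := by linarith
  have he1 : 0 < e1 := by nlinarith
  have hK0 : 0 < K := by linarith
  have h4C : 0 < 4 * C ^ 2 := by positivity
  refine ⟨min (e2 / (4 * C ^ 2)) (e1 / (K * (4 * C ^ 2))), 4 * K * C ^ 2 + C + 2 * C * (C + 4 * K * C ^ 2) + 8 * K * C ^ 2 + 2 * C ^ 2 + 1,
    lt_min (by positivity) (by positivity), by nlinarith [mul_pos hK0 (pow_pos hC0 2), mul_pos hC0 (by positivity : 0 < C + 4 * K * C ^ 2), pow_pos hC0 2], ?_⟩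
  intro G Φ D κ hE hS n r u hr hr2 hu hj
  have hrr1 : 4 * C ^ 2 * r ≤ e2 := by
    have h := le_trans hr2 (min_le_left _ _)
    rw [le_div_iff₀ h4C] at h
    linarith
  have hrr2 : K * (4 * C ^ 2 * r) ≤ e1 := by
    have h := le_trans hr2 (min_le_right _ _)
    rw [le_div_iff₀ (by positivity)] at h
    linarith
  have hD0 : ∀ p q, 0 ≤ D p q := fun p q => (hE.d0 p q).1
  set ν : ℕ → ℝ := fun i => nrm G (u i) with hν
  set w : ℕ → P (m + 1) := fun i => sc (1 / ν i) (u i) with hwdef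
  have hν1 : ∀ i ≤ n, 3 / 4 ≤ ν i := fun i hi => (hu i hi).1
  have hν2 : ∀ i ≤ n, ν i ≤ 5 / 4 := fun i hi => (hu i hi).2
  have hν0 : ∀ i ≤ n, 0 < ν i := fun i hi => by linarith [hν1 i hi]
  have hinv : ∀ i ≤ n, 0 < 1 / ν i ∧ 1 / ν i ≤ 4 / 3 := by
    intro i hi
    refine ⟨by have := hν0 i hi; positivity, ?_⟩
    rw [div_le_iff₀ (hν0 i hi)]
    linarith [hν1 i hi]
  have hw1 : ∀ i ≤ n, nrm G (w i) = 1 := by
    intro i hi
    show nrm G (sc (1 / ν i) (u i)) = 1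
    rw [hE.sn, abs_of_pos (hinv i hi).1]
    show 1 / ν i * ν i = 1
    have := hν0 i hi
    field_simp
  have hdν : ∀ i < n, |ν (i + 1) - ν i| ≤ C * r := by
    intro i hi
    have e1 := hE.nl (u (i + 1)) (Φ 1 (u i)) (by linarith [hν2 (i + 1) hi]) (by rw [hE.fn]; linarith [hν2 i hi.le])
    rw [hE.fn, (hE.d0 (u (i + 1)) (Φ 1 (u i))).2.2] at e1
    exact le_trans e1 (mul_le_mul_of_nonneg_left (hj i hi) hC0.le)
  have hνν : ∀ i ≤ n, |ν i - ν 0| ≤ i * (C * r) := by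
    intro i
    induction i with
    | zero =>
      intro _
      rw [sub_self, abs_zero, Nat.cast_zero, zero_mul]
    | succ i ih =>
      intro hi
      have hi' : i < n := hi
      have e1 := ih hi'.le
      have e2 := hdν i hi'
      have e3 : ν (i + 1) - ν 0 = (ν (i + 1) - ν i) + (ν i - ν 0) := by ring
      rw [e3]
      refine le_trans (abs_add_le _ _) ?_
      push_cast
      linarith
  have hw2 : ∀ i < n, Φ (ν i) (w i) = sc (1 / ν i) (Φ 1 (u i)) := by
    intro i hi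
    show Φ (ν i) (sc (1 / ν i) (u i)) = _
    rw [hE.sf]
    have : 1 / ν i * ν i = 1 := by
      have := hν0 i hi.le
      field_simp
    rw [this]
  have hcom : ∀ i ≤ n, ∀ l : ℝ, sc l (u i) = sc (l * ν i) (w i) := by
    intro i hi l
    show _ = sc (l * ν i) (sc (1 / ν i) (u i))
    rw [SHC_sc]
    have : l * ν i * (1 / ν i) = l := by
      have := hν0 i hi
      field_simp
    rw [this]
  have hjw : ∀ i < n, D (Φ (ν i) (w i)) (w (i + 1)) ≤ 4 * C ^ 2 * r := by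
    intro i hi
    have e1 : D (Φ (ν i) (w i)) (sc (1 / ν i) (u (i + 1))) ≤ 2 * r := by
      rw [hw2 i hi]
      exact le_trans (hE.s2 _ _ _ (hinv i hi.le).1.le (by linarith [(hinv i hi.le).2])) (mul_le_mul_of_nonneg_left (hj i hi) (by norm_num))
    have e2 : D (sc (1 / ν i) (u (i + 1))) (w (i + 1)) ≤ C * (4 / 3 * (C * r)) := by
      rw [hcom (i + 1) hi, (hE.d0 _ _).2.2]
      have f1 : 0 ≤ 1 / ν i * ν (i + 1) := mul_nonneg (hinv i hi.le).1.le (hν0 (i + 1) hi).le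
      have f2 : 1 / ν i * ν (i + 1) ≤ 2 := by
        have := mul_le_mul (hinv i hi.le).2 (hν2 (i + 1) hi) (hν0 (i + 1) hi).le (by norm_num)
        linarith
      refine le_trans (hE.s1 (w (i + 1)) _ (by rw [hw1 (i + 1) hi]; norm_num) f1 f2) (mul_le_mul_of_nonneg_left ?_ hC0.le)
      have f3 : 1 / ν i * ν (i + 1) - 1 = 1 / ν i * (ν (i + 1) - ν i) := by
        have := hν0 i hi.le
        field_simp
      rw [f3, abs_mul, abs_of_pos (hinv i hi.le).1]
      exact mul_le_mul (hinv i hi.le).2 (hdν i hi) (abs_nonneg _) (by norm_num)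
    have e3 := hE.dt (Φ (ν i) (w i)) (sc (1 / ν i) (u (i + 1))) (w (i + 1))
    have e4 : 2 * r + C * (4 / 3 * (C * r)) ≤ 4 * C ^ 2 * r := by
      have : r ≤ C ^ 2 * r := by nlinarith [mul_nonneg (by nlinarith : (0 : ℝ) ≤ C ^ 2 - 1) hr]
      nlinarith
    linarith
  obtain ⟨v, T, hv, hT0, hT, hx⟩ := H G Φ D κ hE hS n (4 * C ^ 2 * r) ν w (by positivity) hrr1 hw1
    (fun i hi => ⟨by linarith [hν1 i hi.le], by linarith [hν2 i hi.le], hjw i hi⟩)
  have hx1 : nrm G (κ (w 0) (0, v)) = 1 := by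
    refine hS.mem (w 0) (hw1 0 (Nat.zero_le _)) (0, v) ?_
    have : ‖((0 : W m), v)‖ = ‖v‖ := by
      rw [Prod.norm_def]
      simp
    rw [this]
    exact le_trans hv hrr2
  have hTT : ∀ i ≤ n, |T i - i * ν 0| ≤ i * (n * (C * r) + K * (4 * C ^ 2 * r)) := by
    intro i
    induction i with
    | zero =>
      intro _
      rw [hT0, Nat.cast_zero, zero_mul, zero_mul, sub_zero, abs_zero]
    | succ i ih =>
      intro hi
      have hi' : i < n := hi
      have e1 := ih hi'.le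
      have e2 := hT i hi'
      have e3 := hνν i hi'.le
      have e5 : (i : ℝ) * (C * r) ≤ n * (C * r) := mul_le_mul_of_nonneg_right (by exact_mod_cast hi'.le) (by positivity)
      have e4 : T (i + 1) - ((i + 1 : ℕ) : ℝ) * ν 0 = (T (i + 1) - T i - ν i) + (ν i - ν 0) + (T i - i * ν 0) := by
        push_cast
        ring
      rw [e4]
      refine le_trans (abs_add_le _ _) ?_
      have e6 := abs_add_le (T (i + 1) - T i - ν i) (ν i - ν 0)
      push_cast
      linarith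
  refine ⟨v, ?_, ?_⟩
  · refine le_trans hv ?_
    have e1 : K * (4 * C ^ 2 * r) = (4 * K * C ^ 2) * r := by ring
    rw [e1]
    refine mul_le_mul_of_nonneg_right ?_ hr
    have : 0 ≤ C + 2 * C * (C + 4 * K * C ^ 2) + 8 * K * C ^ 2 + 2 * C ^ 2 + 1 := by positivity
    linarith
  · intro i hi
    have hin : (i : ℝ) ≤ n := by exact_mod_cast hi
    have hn0 : (0 : ℝ) ≤ n := Nat.cast_nonneg n
    have hi0 : (0 : ℝ) ≤ i := Nat.cast_nonneg i
    have hn1 : (1 : ℝ) ≤ n + 1 := by linarith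
    have hsq : (n : ℝ) + 1 ≤ (n + 1) ^ 2 := by nlinarith
    have hCr : 0 ≤ C * r := by positivity
    constructor
    · have g1 : D (Φ (i * ν 0) (κ (w 0) (0, v))) (Φ (T i) (κ (w 0) (0, v))) ≤ C * ((n + 1) ^ 2 * (C * r + K * (4 * C ^ 2 * r))) := by
        refine le_trans (hE.gt _ _ _ (by rw [hx1]; norm_num)) (mul_le_mul_of_nonneg_left ?_ hC0.le)
        rw [abs_sub_comm]
        refine le_trans (hTT i hi) ?_
        have f0 : 0 ≤ K * (4 * C ^ 2 * r) := by positivity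
        have f1 : (i : ℝ) * (n * (C * r) + K * (4 * C ^ 2 * r)) ≤ n * (n * (C * r) + K * (4 * C ^ 2 * r)) :=
          mul_le_mul_of_nonneg_right hin (by positivity)
        have f2 : (n : ℝ) * (n * (C * r) + K * (4 * C ^ 2 * r)) = n ^ 2 * (C * r) + n * (K * (4 * C ^ 2 * r)) := by ring
        have f3 : (n : ℝ) ^ 2 * (C * r) ≤ (n + 1) ^ 2 * (C * r) := mul_le_mul_of_nonneg_right (by nlinarith) hCr
        have f4 : (n : ℝ) * (K * (4 * C ^ 2 * r)) ≤ (n + 1) ^ 2 * (K * (4 * C ^ 2 * r)) := mul_le_mul_of_nonneg_right (by nlinarith) f0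
        have f5 : ((n : ℝ) + 1) ^ 2 * (C * r + K * (4 * C ^ 2 * r)) = (n + 1) ^ 2 * (C * r) + (n + 1) ^ 2 * (K * (4 * C ^ 2 * r)) := by ring
        linarith
      have g2 := hx i hi
      have g3 := hE.dt (Φ (i * ν 0) (κ (w 0) (0, v))) (Φ (T i) (κ (w 0) (0, v))) (w i)
      have h0n : 0 ≤ n := Nat.zero_le n
      have g4 := hE.s2 (Φ (i * ν 0) (κ (w 0) (0, v))) (w i) (ν 0) (hν0 0 h0n).le (by linarith [hν2 0 h0n])
      have g5 : D (sc (ν 0) (w i)) (u i) ≤ C * (4 / 3 * (n * (C * r))) := by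
        have f0 : sc (ν 0) (w i) = sc (ν 0 * (1 / ν i)) (u i) := SHC_sc _ _ _
        rw [f0, (hE.d0 _ _).2.2]
        have f1 : 0 ≤ ν 0 * (1 / ν i) := mul_nonneg (hν0 0 h0n).le (hinv i hi).1.le
        have f2 : ν 0 * (1 / ν i) ≤ 2 := by
          have := mul_le_mul (hν2 0 h0n) (hinv i hi).2 (hinv i hi).1.le (by norm_num)
          linarith
        refine le_trans (hE.s1 (u i) _ (by linarith [hν2 i hi]) f1 f2) (mul_le_mul_of_nonneg_left ?_ hC0.le)
        have f3 : ν 0 * (1 / ν i) - 1 = 1 / ν i * (ν 0 - ν i) := by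
          have := hν0 i hi
          field_simp
        rw [f3, abs_mul, abs_of_pos (hinv i hi).1, abs_sub_comm]
        refine mul_le_mul (hinv i hi).2 (le_trans (hνν i hi) (mul_le_mul_of_nonneg_right hin hCr)) (abs_nonneg _) (by norm_num)
      have g6 := hE.dt (sc (ν 0) (Φ (i * ν 0) (κ (w 0) (0, v)))) (sc (ν 0) (w i)) (u i)
      have g7 : D (sc (ν 0) (Φ (i * ν 0) (κ (w 0) (0, v)))) (u i) ≤
          2 * (C * ((n + 1) ^ 2 * (C * r + K * (4 * C ^ 2 * r))) + K * (4 * C ^ 2 * r)) + C * (4 / 3 * (n * (C * r))) := by linarith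
      refine le_trans g7 ?_
      have q0 : 0 ≤ K * C ^ 2 * r := by positivity
      have q1 : 0 ≤ C ^ 2 * r := by positivity
      have q2 : (n : ℝ) * (C ^ 2 * r) ≤ (n + 1) ^ 2 * (C ^ 2 * r) := mul_le_mul_of_nonneg_right (by nlinarith) q1
      have q3 : K * C ^ 2 * r ≤ (n + 1) ^ 2 * (K * C ^ 2 * r) := by
        have := mul_le_mul_of_nonneg_right (by nlinarith : (1 : ℝ) ≤ (n + 1) ^ 2) q0
        linarith
      have q4 : 0 ≤ ((n : ℝ) + 1) ^ 2 * ((4 * K * C ^ 2 + C + 1) * r) := by positivity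
      have q5 : (4 * K * C ^ 2 + C + 2 * C * (C + 4 * K * C ^ 2) + 8 * K * C ^ 2 + 2 * C ^ 2 + 1) * ((n : ℝ) + 1) ^ 2 * r =
          ((n : ℝ) + 1) ^ 2 * ((4 * K * C ^ 2 + C + 1) * r) + 2 * (C * ((n + 1) ^ 2 * (C * r + K * (4 * C ^ 2 * r)))) + 8 * ((n + 1) ^ 2 * (K * C ^ 2 * r)) + 2 * ((n + 1) ^ 2 * (C ^ 2 * r)) := by ring
      rw [q5]
      have q6 : 2 * (C * ((n + 1) ^ 2 * (C * r + K * (4 * C ^ 2 * r))) + K * (4 * C ^ 2 * r)) + C * (4 / 3 * (n * (C * r))) =
          2 * (C * (((n : ℝ) + 1) ^ 2 * (C * r + K * (4 * C ^ 2 * r)))) + 8 * (K * C ^ 2 * r) + 4 / 3 * (n * (C ^ 2 * r)) := by ring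
      rw [q6]
      have q7 : 0 ≤ (n : ℝ) * (C ^ 2 * r) := by positivity
      linarith
    · refine le_trans (hνν i hi) ?_
      have f1 : (i : ℝ) * (C * r) ≤ (n + 1) * (C * r) := mul_le_mul_of_nonneg_right (by linarith) hCr
      refine le_trans f1 ?_
      have f2 : ((n : ℝ) + 1) * (C * r) = C * (n + 1) * r := by ring
      rw [f2]
      refine mul_le_mul_of_nonneg_right (mul_le_mul_of_nonneg_right ?_ (by linarith)) hr
      have : 0 ≤ 4 * K * C ^ 2 + 2 * C * (C + 4 * K * C ^ 2) + 8 * K * C ^ 2 + 2 * C ^ 2 + 1 := by positivity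
      linarith

end

end Pool.Agent.VD
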